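import Pool.Agent.Helper74.LE.Basic
import Pool.Agent.Helper74.LL.GoalsI

/-!
# Project LE (MP_cc6379_al): goals, part I (the goals of LL for `TE` instead of `TE`). From the degree estimate `BP` to (B), P1, P4, P8, (U).

`X : TE S W H` (see `Defs.lean`); `T_w = X.D.t w`, `c_w = X.D.c w`, `ℓ = X.cs.length`, `B x g y = T_x c_g T_y`. `BP M n`: for admissible `(x, g, y)` with `ℓ(x) + ℓ(y) < n`, `B x g y ∈ LP M (M - α g)`. Lemmas on `LP` and `Vm` in `Basic.lean`. Goals of the form for `a` with `Ge m z ↔ m ≤ a z` are used with the function `a` of `W`.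
Facts: `A_P` (`k_ap`: `α` is bounded on `W_I`, monotone for reduced products and for `leL`, `leR`, invariant under inverses), `A_B` (`k_ab`), `A_S` (`k_as`), `A_K`, `A_L` (`k_ak`, `k_al`), `A_J` (`k_aj`), `H_1, H_2, H_3` (`g_h1`, `g_h2`, `g_h3`), `G_PA, G_PB, G_PC` (`k_gpa`, `k_gpb`, `k_gpc`).
-/

set_option autoImplicit false

open LaurentPolynomial Pool.Agent.Helper15.RA Pool.Agent.Helper45.AM Pool.Agent.Helper74.LL

noncomputable section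

namespace Pool.Agent.Helper74.LE

/-- PACKET LE-IGE (2.5 h). The relation `Ge`.

PROOF. (1) `w = 1 * 1 * w`, `I = ∅`. (2) clear. (3) there are finitely many `I` with `Sm I`, and `α` is bounded on each `W_I` (`A_P`). (4) `w⁻¹ = u'⁻¹ g⁻¹ u⁻¹`, `α g⁻¹ = α g` (`A_P`). (5) `m ≤ α g`: take `u = u' = 1`. Conversely let `g = u g₁ u'` reduced, `g₁ ∈ W_J`, `m ≤ α g₁`. `u g₁, u, g₁, u' ∈ W_I` (`G_PB` (5), twice), so by `A_P` (last clause, for `I`) `α g₁ ≤ α (u g₁) ≤ α g`.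
(6) `w = u v` reduced, `u = u₁ g u₂` reduced: `w = u₁ g (u₂ v)` reduced. (7) `z = u g u'` reduced, `g ∈ W_I`. `u = x v`, `XR I x`, `v ∈ W_I`; `u' = v' y`, `v' ∈ W_I`, `XL I y`; `g₂ := v g v' ∈ W_I`, `z = x g₂ y`; `ℓ(z) = ℓ(x) + ℓ(v) + ℓ(g) + ℓ(v') + ℓ(y) ≥ ℓ(x) + ℓ(g₂) + ℓ(y) ≥ ℓ(z)`, so `ℓ(g₂) = ℓ(v) + ℓ(g) + ℓ(v')`, `z = x g₂ y` is reduced, and `α g ≤ α (v g) ≤ α g₂` (`A_P`). -/
def IGE : Prop := ∀ (S W H : Type) [Finite S] [Group W] [Ring H] [Algebra ℤ[T;T⁻¹] H] (X : TE S W H),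
  (∀ w, X.Ge 0 w) ∧ (∀ m m' w, X.Ge m w → m' ≤ m → X.Ge m' w) ∧ (∃ N, ∀ w, ¬ X.Ge (N + 1) w) ∧
  (∀ m w, X.Ge m w → X.Ge m w⁻¹) ∧ (∀ (I : Set S) (g : W) (m : ℕ), Sm I → g ∈ par X.cs I → (X.Ge m g ↔ m ≤ X.α g)) ∧
  (∀ m u v, X.cs.length (u * v) = X.cs.length u + X.cs.length v → X.Ge m u ∨ X.Ge m v → X.Ge m (u * v)) ∧
  (∀ m z, X.Ge m z → ∃ (x g y : W) (I : Set S), Sm I ∧ XR X.cs I x ∧ g ∈ par X.cs I ∧ XL X.cs I y ∧ z = x * g * y ∧
    X.cs.length z = X.cs.length x + X.cs.length g + X.cs.length y ∧ m ≤ X.α g)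

/-- PACKET LE-IDS (3.5 h). From `IGE`. `BP (M+1)` implies that `{c_z : Ge (M+1) z}` spans an ideal. Write `N = M + 1`.

PROOF. (1) If `g ∈ W_I`, `Sm I`, `N ≤ α g`, `u, u' ∈ W`, then `T_u c_g T_u'` is a combination of `B x' g' y'`, `(x', g', y')` admissible for `I`, `N ≤ α g'`, `ℓ(x') ≤ ℓ(u)`, `ℓ(y') ≤ ℓ(u')`: `u = x' v`, `u' = v' y'` (`v, v' ∈ W_I`), `T_u c_g T_u' = T_(x') (T_v c_g T_(v')) T_(y')`, and `T_v c_g T_(v')` is a combination of `c_(g')`, `g' ∈ W_I`, `α g ≤ α g'` (`T_v`, `T_(v')` are combinations of `c_k`, `k ∈ W_I`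
(`A_S`); `p4`). (2) Claim: for admissible `(x, g, y)` with `N ≤ α g`: `B x g y ∈ Vm M`. Strong induction on `ℓ(x) + ℓ(y)`. Let `z` be such that not `Ge N z`, `η` the `c_z`-coordinate of `B := B x g y`. `BP N n`: `B ∈ LP N (N - α g)`; not `Ge (N+1) z`, so `deg η ≤ N - α g ≤ 0`, and the coefficient of `v^(N - α g)` is `0` as not `Ge N z`: `deg η ≤ -1`. `bar B = bar(T_x) c_g bar(T_y)`,
`bar(T_x) = T_x + ∑_(ℓ(u) < ℓ(x)) r_u T_u`, same for `y` (`H_2`): `bar B - B` is a combination of `T_u c_g T_u'` with `ℓ(u) + ℓ(u') < ℓ(x) + ℓ(y)`, so by (1) and induction it is in `Vm M`: the `c_z`-coordinates of `B` and `bar B` agree. The `c_z`-coordinate of `bar B` is `invert η` (`bar` is semilinear, `bar c_w = c_w`). So `η = invert η`, `η = 0` (`eq_zero_of_invert`).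
(3) Claim: `c_z ∈ E := span {B x g y : (x,g,y) admissible, N ≤ α g}` if `Ge N z`. Strong induction on `ℓ(z)`: `z = x g y` as in `IGE` (7), `N ≤ α g`. `B x g y = T_x (T_g + ∑ p T_g') T_y` is `T_z` + (`T`-support in lengths `< ℓ(z)`) (`H_1`, `H_2`), so by `A_B` its `c_z`-coordinate is `1` and the others are in lengths `< ℓ(z)`; by (2) they are at `z'` with `Ge N z'`. So `c_z = B x g y - ∑ (..) c_(z')`, induction.
(4) By (1) `T_u E ⊂ E`, `E T_u ⊂ E` (`T_u T_x c_g T_y`: `T_u T_x` is a combination of `T_w`), so `E` is a two-sided ideal; by (2) `E ⊂ Vm M`. If `Ge N x` then `c_x c_y ∈ E ⊂ Vm M`, so `h x y z = X.b.repr (c_x c_y) z = 0` unless `Ge N z`. Same for `Ge N y`. -/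
def IDS : Prop := ∀ (S W H : Type) [Finite S] [Group W] [Ring H] [Algebra ℤ[T;T⁻¹] H] (X : TE S W H) (M : ℕ),
  (∀ n, X.BP (M + 1) n) → X.Id M

/-- PACKET LE-IP1 (2.5 h). From `IGE`. P1.

PROOF. Strong induction on `ℓ(z)`. `M := a z`: `Ge M z`, not `Ge (M+1) z`. `z = x g y` as in `IGE` (7), `M ≤ α g`; `Ge (α g) z`, so `α g = M`. `B := B x g y = T_z + ` (`T`-support in lengths `< ℓ(z)`), as `T_x T_g T_y = T_z` and the other `T`-coordinates of `c_g` are in smaller lengths (`H_1`, `H_2`). So (`A_B`) `c_z = B - ∑_(ℓ(z') < ℓ(z)) β_(z') c_(z')`. For such a `z'` let `M' := a z'`; not `Ge (M'+1) z'`, so by `BP M' n`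
`deg β_(z') ≤ M' - α g = a z' - M`. By induction the `T_1`-coordinate of `c_(z')` has degree `≤ -a z'`; the product has degree `≤ -M`. The `T_1`-coordinate of `B`: `B = ∑_(k ∈ W_I) p_k T_(x k) T_y` (`A_S`), and `T_(x k) T_y` has the `T_1`-coordinate `1` if `x k y = 1` and `0` otherwise (`H_1`). `x k = y⁻¹` with `XR I x`, `XR I y⁻¹` (`G_PC`) implies `k = 1`. So it is `0` or `p_1`, the `T_1`-coordinate of `c_g`, of degree
`≤ -α g = -M` (`p1`). -/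
def IP1 : Prop := ∀ (S W H : Type) [Finite S] [Group W] [Ring H] [Algebra ℤ[T;T⁻¹] H] (X : TE S W H) (a : W → ℕ),
  (∀ m z, X.Ge m z ↔ m ≤ a z) → (∀ M n, X.BP M n) → ∀ z, DegLE (-(a z : ℤ)) (X.D.t.repr (X.D.c z) 1)

/-- PACKET LE-IDEG (1.5 h). Upper bound and (B).

PROOF. (1) Let `M := a z`; not `Ge (M+1) z`. `c_x = ∑ p_u T_u`, `c_y = ∑ q_w T_w` with degrees `≤ 0` (`H_2`), `c_x c_y = ∑ p_u q_w T_u T_w`, and `T_u T_w = B u 1 w` (`c_1 = 1`), `(u, 1, w)` admissible for `I = ∅`, `α 1 = 0` (`A_P` for `∅`): by `BP M n` in `LP M M`. So `h x y z = X.b.repr (c_x c_y) z` has degree `≤ M`. (2) `N` with not `Ge (N+1) w` for all `w`: the `c`-coordinates of `T_x T_y` have degree `≤ N` by `BP N n`, so the `T`-coordinates too (`A_B`). -/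
def IDEG : Prop := ∀ (S W H : Type) [Group W] [Ring H] [Algebra ℤ[T;T⁻¹] H] (X : TE S W H) (a : W → ℕ),
  (∀ m z, X.Ge m z ↔ m ≤ a z) → (∃ N, ∀ w, ¬ X.Ge (N + 1) w) → (∀ M n, X.BP M n) →
  (∀ x y z, DegLE (a z) (X.h x y z)) ∧ X.D.Bdd

/-- PACKET LE-IU (3.5 h). From `IGE`. The hypothesis of `E_7` (`Helper45/AM/GoalsE.lean`) with `sl := ℓ`. Compare `E_4`, `E_6` and their Lean proofs (`Helper58/AM/E4.lean`, `Helper32/AM/E6.lean`).

PROOF. `M := a z`. `z = x g y` as in `IGE` (7), reduced, for `I`, `α g = M` (as in `IP1`). `lam₀` from the last clause of `A_J` for `(I, α)` (`X.pg I`), `g`: pairs `p` with `p.1, p.2 ∈ W_I`, `p.1 ~_R g`, so `α p.1 = M` (`A_P`: `leR` is monotone).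
(1) For `g₁, g₂ ∈ W_I`, `α g₁ = M`, not `Ge (M+1) u`: `(h (x g₁) (g₂ y) u).coeff M = ∑_(g') γ_(g') (X.b.repr (B x g' y) u).coeff 0`, `γ_(g') = (h g₁ g₂ g').coeff (α g')`: `A_K`, `A_L` (`P = I`): `c_(x g₁) = T_x c_(g₁) + ∑ p T_(r.1) c_(r.2)`, `c_(g₂ y) = c_(g₂) T_y + ∑ p' c_(r'.1) T_(r'.2)`, `deg p, p' ≤ -1`, `r.1 ∈ X_I`, `r'.2 ∈ Y_I`. `c_(x g₁) c_(g₂ y)` is the sum of the
`p p' h_(k₁,k₂,k) B x' k y'` (`p = 1` resp. `p' = 1` for the leading terms), `(x', k, y')` admissible, `deg h ≤ α k` (`deg`), `B x' k y' ∈ LP M (M - α k)` (`BP`): all terms except those with `p = p' = 1` have `c_u`-coordinates of degree `≤ M - 1`. The rest is `∑_(g') h g₁ g₂ g' B x g' y`; `h g₁ g₂ g' = γ_(g') v^(α g') + (deg ≤ α g' - 1)`, and the second part contributes degree `≤ M - 1` too. If `γ_(g') ≠ 0` then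
`α g' = α g₁ = M` (`p8`), so `v^(α g')` times the coordinate of `B x g' y` has at `v^M` the coefficient `(..).coeff 0`. (If `γ_(g') = 0` the term is `0`.)
(2) `∑ lam₀(p) (h (x p.1) (p.2 y) u).coeff M = ∑_(g') (∑ lam₀(p) (h p.1 p.2 g').coeff (α g')) (X.b.repr (B x g' y) u).coeff 0 = (X.b.repr (B x g y) u).coeff 0` (`A_J`). `B x g y = T_z + ` (`T`-support in lengths `< ℓ(z)`), so (`A_B`) the coordinate is `1` for `u = z` and `0` for `u ≠ z`, `ℓ(z) ≤ ℓ(u)`.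
(3) `lam := ` the sum of the `single (x p.1, p.2 y) lam₀(p)` over the `p ∈ supp lam₀` with `a (x p.1) = M` (`p ↦ (x p.1, p.2 y)` is injective: `mapDomain`, then `filter`). The dropped `p` have `a (x p.1) ≠ M`; `Ge M (x p.1)` (`x p.1` is reduced, `IGE` (5), (6)), so `a (x p.1) > M`, and by `p4` `h (x p.1) (p.2 y) u = 0` for `a u = M`. So for `u` with `a u = M` (also `u = z`) the sum over `lam` is the one in (2). -/
def IU : Prop := ∀ (S W H : Type) [Finite S] [Group W] [Ring H] [Algebra ℤ[T;T⁻¹] H] (X : TE S W H) (a : W → ℕ),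
  (∀ m z, X.Ge m z ↔ m ≤ a z) → (∀ M n, X.BP M n) → (∀ x y z, X.h x y z ≠ 0 → a x ≤ a z ∧ a y ≤ a z) →
  ∀ z, ∃ lam : W × W →₀ ℤ, (∀ p ∈ lam.support, a p.1 = a z) ∧
    (lam.sum fun p m => m * (X.h p.1 p.2 z).coeff (a z)) = 1 ∧
    ∀ u, a u = a z → u ≠ z → X.cs.length z ≤ X.cs.length u →
      (lam.sum fun p m => m * (X.h p.1 p.2 u).coeff (a z)) = 0

end Pool.Agent.Helper74.LE
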