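import Pool.Agent.Helper74.LE.GoalsH
import Pool.Agent.Helper74.LE.GoalsI

/-!
# Project LE (MP_cc6379_al): assembly
-/

set_option autoImplicit false

open LaurentPolynomial Pool.Agent.Helper15.RA Pool.Agent.Helper45.AM Pool.Agent.Helper15.AM Pool.Agent.Helper74.LL

noncomputable section

namespace Pool.Agent.Helper74.LE

/-- all the facts used in the assembly -/
structure Facts : Prop where
  kd1 : KD1
  kd2 : KD2
  geo : GEO
  hwt : HWT
  hn : HN
  hf : HF
  hm : HM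
  ua0 : UA0
  ua1 : UA1
  ua2 : UA2
  ub : UB
  uc : UC
  ige : IGE
  ids : IDS
  ip1 : IP1
  ideg : IDEG
  ip8 : Pool.Agent.Helper74.LL.IP8
  iu : IU

variable (F : Facts)

section U

variable {S W H : Type} [Group W] [Ring H] [Algebra ℤ[T;T⁻¹] H] (X : TE S W H)

/-- the Coxeter matrix is large -/
theorem lg : Lg X.M := ⟨X.fin, X.mat, X.big⟩

include F

/-- `s_a s_b ∈ W_ij` -/
theorem pair_eq {i j a b : S} (hab : a ≠ b) (h : X.cs.simple a * X.cs.simple b ∈ par X.cs {i, j}) :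
    ({a, b} : Set S) = {i, j} := by
  have h2 : X.cs.length (X.cs.simple a * X.cs.simple b) = 2 :=
    (F.kd1 S W X.M X.cs a b hab (X.fin a b)).2.2.2.2.2.2.2.2.1
  have hw : X.cs.wordProd [a, b] = X.cs.simple a * X.cs.simple b := by
    simp [CoxeterSystem.wordProd]
  have hr : X.cs.IsReduced [a, b] := by
    rw [CoxeterSystem.IsReduced, hw, h2]
    rfl
  have hk := ((k_gpb S W X.M X.cs).2 {i, j}).2.2.2.1 [a, b] hr (by rwa [hw])
  have ha := hk a (by simp)
  have hb := hk b (by simp)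
  simp only [Set.mem_insert_iff, Set.mem_singleton_iff] at ha hb
  rcases ha with rfl | rfl <;> rcases hb with rfl | rfl
  · exact absurd rfl hab
  · rfl
  · exact Set.pair_comm _ _
  · exact absurd rfl hab

/-- `s_a s_b s_a ∈ W_ij` -/
theorem pair_eq3 {i j a b : S} (hab : a ≠ b) (hm : X.M a b ≠ 2)
    (h : X.cs.simple a * X.cs.simple b * X.cs.simple a ∈ par X.cs {i, j}) :
    ({a, b} : Set S) = {i, j} := by
  have h7 : 7 ≤ X.M a b := X.big a b hab hm
  have hl3 : X.cs.length (X.cs.simple a * X.cs.simple b * X.cs.simple a) = 3 :=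
    (F.kd1 S W X.M X.cs a b hab (X.fin a b)).2.2.2.2.2.2.2.2.2.1 (by omega)
  have hw : X.cs.wordProd [a, b, a] = X.cs.simple a * X.cs.simple b * X.cs.simple a := by
    simp [CoxeterSystem.wordProd, mul_assoc]
  have hrd : X.cs.IsReduced [a, b, a] := by
    rw [CoxeterSystem.IsReduced, hw, hl3]
    rfl
  have hk := ((k_gpb S W X.M X.cs).2 {i, j}).2.2.2.1 [a, b, a] hrd (by rw [hw]; exact h)
  have ha := hk a (by simp)
  have hb := hk b (by simp)
  simp only [Set.mem_insert_iff, Set.mem_singleton_iff] at ha hb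
  rcases ha with rfl | rfl <;> rcases hb with rfl | rfl
  · exact absurd rfl hab
  · rfl
  · exact Set.pair_comm _ _
  · exact absurd rfl hab

theorem bd_symm {M : ℕ} {i j : S} (hij : i ≠ j) {g : W} {β : ℤ} (h : X.Bd M i j g β) : X.Bd M j i g β := by
  have hw : w0 X.cs i j = w0 X.cs j i := (F.kd1 S W X.M X.cs i j hij (X.fin i j)).1.2.1
  have hm : X.M i j = X.M j i := X.M.symmetric i j
  obtain ⟨h0, h | h | h | h⟩ := h
  · exact ⟨h0, Or.inl (by rw [← hw, ← hm]; exact h)⟩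
  · exact ⟨h0, Or.inr (Or.inl (by rw [← hw, ← hm, max_comm]; exact h))⟩
  · exact ⟨h0, Or.inr (Or.inr (Or.inr (by rw [← hw, ← hm]; exact h)))⟩
  · exact ⟨h0, Or.inr (Or.inr (Or.inl (by rw [← hw, ← hm]; exact h)))⟩

theorem bd_pair {M : ℕ} {i j a b : S} (hp : ({a, b} : Set S) = {i, j}) (hab : a ≠ b) {g : W} {β : ℤ}
    (h : X.Bd M i j g β) : X.Bd M a b g β := by
  have ha : a ∈ ({i, j} : Set S) := hp ▸ Set.mem_insert _ _
  have hb : b ∈ ({i, j} : Set S) := hp ▸ Set.mem_insert_of_mem _ (Set.mem_singleton _)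
  simp only [Set.mem_insert_iff, Set.mem_singleton_iff] at ha hb
  rcases ha with rfl | rfl <;> rcases hb with rfl | rfl
  · exact absurd rfl hab
  · exact h
  · exact bd_symm F X (Ne.symm hab) h
  · exact absurd rfl hab

theorem bd_inv {M : ℕ} {i j : S} {g : W} {β : ℤ} (h : X.Bd M i j g β) : X.Bd M i j g⁻¹ β := by
  have hLi := (F.hwt S W H X).2.2.1 g
  obtain ⟨h0, h | h | h | h⟩ := h
  · exact ⟨h0, Or.inl (by rw [hLi]; exact h)⟩
  · exact ⟨h0, Or.inr (Or.inl h)⟩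
  · refine ⟨h0, Or.inr (Or.inr (Or.inl ⟨h.1, h.2.1, ?_, h.2.2.2⟩))⟩
    rw [h.2.2.1]
    simp only [mul_inv_rev, X.cs.inv_simple, mul_assoc]
  · refine ⟨h0, Or.inr (Or.inr (Or.inr ⟨h.1, h.2.1, ?_, h.2.2.2⟩))⟩
    rw [h.2.2.1]
    simp only [mul_inv_rev, X.cs.inv_simple, mul_assoc]

/-- `Bd` for `s_a s_b` -/
theorem bd2 {M : ℕ} {a b : S} (hab : a ≠ b) {β : ℤ} (h : X.Bd M a b (X.cs.simple a * X.cs.simple b) β) :
    β ≤ M ∧ (((X.M a b = 2 ∨ X.L (w0 X.cs a b) ≤ M) ∧ β = X.l a + X.l b) ∨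
      (X.M a b ≠ 2 ∧ M < X.L (w0 X.cs a b) ∧ β = max (X.l a : ℤ) (X.l b))) := by
  have hL2 : X.L (X.cs.simple a * X.cs.simple b) = X.l a + X.l b := ((F.hwt S W H X).2.2.2 a b hab).2.2.1
  have h2 : X.cs.length (X.cs.simple a * X.cs.simple b) = 2 :=
    (F.kd1 S W X.M X.cs a b hab (X.fin a b)).2.2.2.2.2.2.2.2.1
  obtain ⟨h0, h | h | h | h⟩ := h
  · refine ⟨h0, Or.inl ⟨h.1, ?_⟩⟩
    rw [h.2, hL2]
    push_cast
    rfl
  · refine ⟨h0, Or.inr ⟨h.1, h.2.1, ?_⟩⟩
    rw [h.2.2]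
    push_cast
    rfl
  · exfalso
    have h7 : 7 ≤ X.M a b := X.big a b hab h.1
    have hl3 : X.cs.length (X.cs.simple a * X.cs.simple b * X.cs.simple a) = 3 :=
      (F.kd1 S W X.M X.cs a b hab (X.fin a b)).2.2.2.2.2.2.2.2.2.1 (by omega)
    rw [← h.2.2.1] at hl3
    omega
  · exfalso
    have h7 : 7 ≤ X.M b a := X.big b a hab.symm (by rw [X.M.symmetric]; exact h.1)
    have hl3 : X.cs.length (X.cs.simple b * X.cs.simple a * X.cs.simple b) = 3 :=
      (F.kd1 S W X.M X.cs b a hab.symm (X.fin b a)).2.2.2.2.2.2.2.2.2.1 (by omega)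
    rw [← h.2.2.1] at hl3
    omega

/-- `Bd` for `s_a s_b s_a` -/
theorem bd3 {M : ℕ} {a b : S} (hab : a ≠ b) (hm : X.M a b ≠ 2) {β : ℤ}
    (h : X.Bd M a b (X.cs.simple a * X.cs.simple b * X.cs.simple a) β) :
    β ≤ M ∧ ((X.L (w0 X.cs a b) ≤ M ∧ β = 2 * X.l a + X.l b) ∨
      (M < X.L (w0 X.cs a b) ∧ β = max (X.l a : ℤ) (X.l b)) ∨
      (M < X.L (w0 X.cs a b) ∧ X.l b < X.l a ∧ X.α (w0 X.cs a b * X.cs.simple b) ≤ M ∧
        β = 2 * X.l a - X.l b)) := by
  have hL3 : X.L (X.cs.simple a * X.cs.simple b * X.cs.simple a) = 2 * X.l a + X.l b :=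
    ((F.hwt S W H X).2.2.2 a b hab).2.2.2.1 hm
  have h7 : 7 ≤ X.M a b := X.big a b hab hm
  obtain ⟨h0, h | h | h | h⟩ := h
  · refine ⟨h0, Or.inl ⟨h.1.resolve_left hm, ?_⟩⟩
    rw [h.2, hL3]
    push_cast
    rfl
  · exact ⟨h0, Or.inr (Or.inl ⟨h.2.1, by rw [h.2.2]; push_cast; rfl⟩)⟩
  · exact ⟨h0, Or.inr (Or.inr ⟨h.2.1, h.2.2.2.1, h.2.2.2.2.1, h.2.2.2.2.2⟩)⟩
  · exact absurd h.2.2.1 ((F.kd1 S W X.M X.cs a b hab (X.fin a b)).2.2.2.2.2.2.2.2.2.2 h7)

/-- mirror images -/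
theorem mir {M : ℕ} {k : ℤ} {x g y : W} (h : X.LP M k (X.D.t y⁻¹ * X.D.t g⁻¹ * X.D.t x⁻¹)) :
    X.LP M k (X.D.t x * X.D.t g * X.D.t y) := (F.hm S W H X).2.1 _ _ _ _ _ h

/-- type A with `m_ac ≠ 2`, `m_bc ≠ 2` -/
theorem uA0 {M n : ℕ} (hI : X.Id M) (hB : X.BP M n) {a b c : S} {x y : W} (hab : a ≠ b)
    (hac : a ≠ c) (hbc : b ≠ c) (hm : X.M a c ≠ 2) (hm' : X.M b c ≠ 2) (hle : X.l b ≤ X.l a)
    (hx : XR X.cs {a, b} x) (hy : XL X.cs {a, b} y)
    (h1 : X.cs.IsRightDescent (x * X.cs.simple a) c) (h2 : X.cs.IsLeftDescent (X.cs.simple b * y) c)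
    (hn : X.cs.length x + X.cs.length y = n) {β : ℤ} (hβ : β ≤ M) (hβ' : β ≤ X.l a + X.l b) :
    X.LP M ((M : ℤ) - β) (X.D.t x * X.D.t (X.cs.simple a * X.cs.simple b) * X.D.t y) := by
  obtain ⟨hN0, -, hN1⟩ := F.hn S W H X M n hB
  refine TE.LP.mono (F.ua0 S W H X M n a b c x y hI hN0 hN1 hab hac hbc hm hm' hle hx hy h1 h2 hn) ?_
  exact max_le (by omega) (by omega)

/-- mirror image of the data of type A -/
theorem mirA {a b c : S} {x y : W} {n : ℕ}
    (hx : XR X.cs {a, b} x) (hy : XL X.cs {a, b} y)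
    (h1 : X.cs.IsRightDescent (x * X.cs.simple a) c) (h2 : X.cs.IsLeftDescent (X.cs.simple b * y) c)
    (hn : X.cs.length x + X.cs.length y = n) :
    XR X.cs {b, a} y⁻¹ ∧ XL X.cs {b, a} x⁻¹ ∧ X.cs.IsRightDescent (y⁻¹ * X.cs.simple b) c ∧
      X.cs.IsLeftDescent (X.cs.simple a * x⁻¹) c ∧ X.cs.length y⁻¹ + X.cs.length x⁻¹ = n := by
  have hxL : XL X.cs {b, a} x⁻¹ := by
    rw [Set.pair_comm, (k_gpc S W X.M X.cs {a, b}).2.2.1, inv_inv]
    exact hx
  have hyR : XR X.cs {b, a} y⁻¹ := by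
    rw [Set.pair_comm, ← (k_gpc S W X.M X.cs {a, b}).2.2.1]
    exact hy
  have h1' : X.cs.IsRightDescent (y⁻¹ * X.cs.simple b) c := by
    rw [← X.cs.isLeftDescent_inv_iff, mul_inv_rev, inv_inv, X.cs.inv_simple]
    exact h2
  have h2' : X.cs.IsLeftDescent (X.cs.simple a * x⁻¹) c := by
    rw [← X.cs.isRightDescent_inv_iff, mul_inv_rev, inv_inv, X.cs.inv_simple]
    exact h1
  have hn' : X.cs.length y⁻¹ + X.cs.length x⁻¹ = n := by
    rw [X.cs.length_inv, X.cs.length_inv, add_comm]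
    exact hn
  exact ⟨hyR, hxL, h1', h2', hn'⟩

/-- type A with `m_ac ≠ 2` -/
theorem uA' {M n : ℕ} (hI : X.Id M) (hB : X.BP M n) (hN2 : X.N2 M n) {a b c : S} {x y : W} (hab : a ≠ b)
    (hac : a ≠ c) (hbc : b ≠ c) (hm : X.M a c ≠ 2) (hx : XR X.cs {a, b} x) (hy : XL X.cs {a, b} y)
    (h1 : X.cs.IsRightDescent (x * X.cs.simple a) c) (h2 : X.cs.IsLeftDescent (X.cs.simple b * y) c)
    (hn : X.cs.length x + X.cs.length y = n) {β : ℤ} (hβ : X.Bd M a b (X.cs.simple a * X.cs.simple b) β) :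
    X.LP M ((M : ℤ) - β) (X.D.t x * X.D.t (X.cs.simple a * X.cs.simple b) * X.D.t y) := by
  obtain ⟨hN0, -, hN1⟩ := F.hn S W H X M n hB
  obtain ⟨hβ0, hβ1⟩ := bd2 F X hab hβ
  by_cases hbc2 : X.M b c = 2
  · have hm2 : X.M a b ≠ 2 := fun h => hac (X.mat b a c (by rw [X.M.symmetric]; exact h) hbc2)
    have key : (X.L (w0 X.cs a b) ≤ M → X.LP M ((M : ℤ) - X.l a - X.l b)
          (X.D.t x * X.D.t (X.cs.simple a * X.cs.simple b) * X.D.t y)) ∧
        (max (X.l a) (X.l b) ≤ M → X.LP M ((M : ℤ) - max (X.l a : ℤ) (X.l b))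
          (X.D.t x * X.D.t (X.cs.simple a * X.cs.simple b) * X.D.t y)) := by
      by_cases h3 : X.cs.IsLeftDescent (X.cs.simple b * (X.cs.simple c * y)) a
      · exact F.ua2 S W H X M n a b c x y hI hN0 hN1 hN2 hab hac hbc2 hx hy h1 h2 hn h3
      · exact F.ua1 S W H X M n a b c x y hI hN0 hN1 hab hac hbc2 hx hy h1 h2 hn h3
    rcases hβ1 with ⟨h3, h4⟩ | ⟨-, -, h4⟩
    · have := key.1 (h3.resolve_left hm2)
      rw [h4, ← sub_sub]
      exact this
    · rw [h4]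
      refine key.2 ?_
      rw [h4] at hβ0
      exact_mod_cast hβ0
  · have hβ' : β ≤ X.l a + X.l b := by
      rcases hβ1 with ⟨-, h4⟩ | ⟨-, -, h4⟩
      · exact h4.le
      · rw [h4]
        exact max_le (by omega) (by omega)
    rcases le_total (X.l b) (X.l a) with hle | hle
    · exact uA0 F X hI hB hab hac hbc hm hbc2 hle hx hy h1 h2 hn hβ0 hβ'
    · obtain ⟨hyR, hxL, h1', h2', hn'⟩ := mirA F X hx hy h1 h2 hn
      have key := uA0 F X hI hB hab.symm hbc hac hbc2 hm hle hyR hxL h1' h2' hn' hβ0 (by rw [add_comm]; exact hβ')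
      have hinv : (X.cs.simple a * X.cs.simple b)⁻¹ = X.cs.simple b * X.cs.simple a := by
        rw [mul_inv_rev, X.cs.inv_simple, X.cs.inv_simple]
      rw [← hinv] at key
      exact mir F X key

theorem uA {M n : ℕ} (hI : X.Id M) (hB : X.BP M n) (hN2 : X.N2 M n) {a b c : S} {x y : W} (hab : a ≠ b)
    (hac : a ≠ c) (hbc : b ≠ c) (hx : XR X.cs {a, b} x) (hy : XL X.cs {a, b} y)
    (h1 : X.cs.IsRightDescent (x * X.cs.simple a) c) (h2 : X.cs.IsLeftDescent (X.cs.simple b * y) c)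
    (hn : X.cs.length x + X.cs.length y = n) {β : ℤ} (hβ : X.Bd M a b (X.cs.simple a * X.cs.simple b) β) :
    X.LP M ((M : ℤ) - β) (X.D.t x * X.D.t (X.cs.simple a * X.cs.simple b) * X.D.t y) := by
  by_cases hac2 : X.M a c = 2
  · have hbc2 : X.M b c ≠ 2 := fun h => hab (X.mat c a b (by rw [X.M.symmetric]; exact hac2)
      (by rw [X.M.symmetric]; exact h))
    obtain ⟨hyR, hxL, h1', h2', hn'⟩ := mirA F X hx hy h1 h2 hn
    have hinv : (X.cs.simple a * X.cs.simple b)⁻¹ = X.cs.simple b * X.cs.simple a := by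
      rw [mul_inv_rev, X.cs.inv_simple, X.cs.inv_simple]
    have hβ' := bd_inv F X (bd_symm F X hab hβ)
    rw [hinv] at hβ'
    have key := uA' F X hI hB hN2 hab.symm hbc hac hbc2 hyR hxL h1' h2' hn' hβ'
    rw [← hinv] at key
    exact mir F X key
  · exact uA' F X hI hB hN2 hab hac hbc hac2 hx hy h1 h2 hn hβ

theorem uB {M n : ℕ} (hI : X.Id M) (hB : X.BP M n) {x g y : W} (h : TB X.cs x g y) {i j : S}
    (hg : g ∈ par X.cs {i, j}) (hx : XR X.cs {i, j} x) (hy : XL X.cs {i, j} y)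
    (hn : X.cs.length x + X.cs.length y = n) {β : ℤ} (hβ : X.Bd M i j g β) :
    X.LP M ((M : ℤ) - β) (X.D.t x * X.D.t g * X.D.t y) := by
  obtain ⟨hN0, -, hN1⟩ := F.hn S W H X M n hB
  obtain ⟨a, b, c, h1, h2, h3, rfl, h4, h5, h6, h7⟩ := h
  have hp := pair_eq F X h1 hg
  have hβ' := bd_pair F X hp h1 hβ
  obtain ⟨hβ0, hβ1⟩ := bd2 F X h1 hβ'
  rw [← hp] at hx hy
  refine TE.LP.mono (F.ub S W H X M n a b c x y hI hN0 hN1 h1 h2 h3 hx hy h4 h5 h6 h7 hn) ?_
  have hβ2 : β ≤ X.l a + X.l c := by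
    rcases hβ1 with ⟨-, h4⟩ | ⟨-, -, h4⟩
    · exact h4.le
    · rw [h4]
      exact max_le (by omega) (by omega)
  exact max_le (by omega) (by omega)

/-- the types A, B, B' -/
theorem uABB {M n : ℕ} (hI : X.Id M) (hB : X.BP M n) (hN2 : X.N2 M n) {x g y : W}
    (h : TA X.cs x g y ∨ TB X.cs x g y ∨ TBm X.cs x g y) {i j : S}
    (hg : Full X.cs i j g) (hx : XR X.cs {i, j} x) (hy : XL X.cs {i, j} y)
    (hn : X.cs.length x + X.cs.length y = n) {β : ℤ} (hβ : X.Bd M i j g β) :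
    X.LP M ((M : ℤ) - β) (X.D.t x * X.D.t g * X.D.t y) := by
  rcases h with h | h | h
  · obtain ⟨a, b, c, h1, h2, h3, rfl, h4, h5⟩ := h
    have hp := pair_eq F X h1 hg.1
    have hβ' := bd_pair F X hp h1 hβ
    rw [← hp] at hx hy
    exact uA F X hI hB hN2 h1 h2 h3 hx hy h4 h5 hn hβ'
  · exact uB F X hI hB h hg.1 hx hy hn hβ
  · have h1 := (F.hm S W H X).2.2.1 x g y h
    have hg' := (F.hm S W H X).2.2.2 i j g hg
    have hxL : XL X.cs {i, j} x⁻¹ := by
      rw [(k_gpc S W X.M X.cs {i, j}).2.2.1, inv_inv]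
      exact hx
    have hyR : XR X.cs {i, j} y⁻¹ := by
      rw [← (k_gpc S W X.M X.cs {i, j}).2.2.1]
      exact hy
    have hn' : X.cs.length y⁻¹ + X.cs.length x⁻¹ = n := by
      rw [X.cs.length_inv, X.cs.length_inv, add_comm]
      exact hn
    exact mir F X (uB F X hI hB h1 hg'.1 hyR hxL hn' (bd_inv F X hβ))

theorem lp_of_reduced {M : ℕ} {x g y : W} {k : ℤ} (hk : 1 ≤ k)
    (hr : X.cs.length (x * g * y) = X.cs.length x + X.cs.length g + X.cs.length y) :
    X.LP M k (X.D.t x * X.D.t g * X.D.t y) := by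
  have hxg : X.cs.length (x * g) = X.cs.length x + X.cs.length g := by
    have h1 := X.cs.length_mul_le (x * g) y
    have h2 := X.cs.length_mul_le x g
    omega
  rw [X.D.mul x g hxg, X.D.mul (x * g) y (by rw [hr, hxg])]
  exact (TE.LP.t M _).mono hk

theorem n2_of_uu {M n : ℕ} (hU : X.UU M n) : X.N2 M n := by
  intro i j x g y β hij hx hg hy hβ hn
  by_cases hr : X.cs.length (x * g * y) = X.cs.length x + X.cs.length g + X.cs.length y
  · exact lp_of_reduced F X (le_max_left _ _) hr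
  · exact (hU i j x g y β hij hx hg hy hβ hn hr).mono (le_max_right _ _)

theorem uu_succ {M n : ℕ} (hI : X.Id M) (hB : X.BP M n) (hU : X.UU M n) : X.UU M (n + 1) := by
  have hN2 := n2_of_uu F X hU
  have hLg := lg X
  intro i j x g y β hij hx hg hy hβ hn hr
  rcases Nat.lt_succ_iff_lt_or_eq.1 hn with hlt | heq
  · exact hU i j x g y β hij hx hg hy hβ hlt hr
  have h4 := (F.geo S W X.M X.cs hLg i j x g y hij hx hg hy).1 hr
  rcases h4 with h4 | h4 | h4 | h4
  · exact uABB F X hI hB hN2 (Or.inl h4) hg hx hy heq hβ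
  · exact uABB F X hI hB hN2 (Or.inr (Or.inl h4)) hg hx hy heq hβ
  · exact uABB F X hI hB hN2 (Or.inr (Or.inr h4)) hg hx hy heq hβ
  · obtain ⟨hN0, -, hN1⟩ := F.hn S W H X M n hB
    obtain ⟨a, b, c, h1, h2, h3, rfl, h5, h6⟩ := h4
    have hm : X.M a b ≠ 2 := fun h => h2 (X.mat b a c (by rw [X.M.symmetric]; exact h) h3)
    have hp := pair_eq3 F X h1 hm hg.1
    have hβ' := bd_pair F X hp h1 hβ
    obtain ⟨hβ0, hβ1⟩ := bd3 F X h1 hm hβ'
    rw [← hp] at hx hy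
    have key := F.uc S W H X M n a b c x y hI hN0 hN1 hN2 h1 h2 h3 hx hy h5 h6 heq ?_
    · rcases hβ1 with ⟨h7, h8⟩ | ⟨h7, h8⟩ | ⟨h7, h8, h9, h10⟩
      · have := key.1 h7
        rw [h8, ← sub_sub]
        exact this
      · rw [h8]
        refine key.2.1 h7 ?_
        rw [h8] at hβ0
        exact_mod_cast hβ0
      · have := key.2.2 h7 h8 h9
        rw [h10, ← sub_add]
        exact this
    · intro i' j' x' g' y' β' hij' hx' hg' hy' hl hβ' hn'
      by_cases hr' : X.cs.length (x' * g' * y') = X.cs.length x' + X.cs.length g' + X.cs.length y'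
      · exact lp_of_reduced F X (le_max_left _ _) hr'
      · rcases Nat.lt_or_eq_of_le hn' with hlt | heq'
        · exact (hU i' j' x' g' y' β' hij' hx' hg' hy' hβ' hlt hr').mono (le_max_right _ _)
        · have h4' := (F.geo S W X.M X.cs hLg i' j' x' g' y' hij' hx' hg' hy').1 hr'
          refine TE.LP.mono (uABB F X hI hB hN2 ?_ hg' hx' hy' heq' hβ') (le_max_right _ _)
          rcases h4' with h4' | h4' | h4' | h4'
          · exact Or.inl h4'
          · exact Or.inr (Or.inl h4')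
          · exact Or.inr (Or.inr h4')
          · exfalso
            obtain ⟨a', b', c', g1, g2, g3, rfl, -, -⟩ := h4'
            have hm' : X.M a' b' ≠ 2 := fun h => g2 (X.mat b' a' c' (by rw [X.M.symmetric]; exact h) g3)
            have h7' : 7 ≤ X.M a' b' := hLg.big a' b' g1 hm'
            have hl3' := (F.kd1 S W X.M X.cs a' b' g1 (X.fin a' b')).2.2.2.2.2.2.2.2.2.1 (by omega)
            omega

theorem bp_uu {M : ℕ} (hI : X.Id M) (n : ℕ) : X.BP M n ∧ X.UU M n := by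
  induction n with
  | zero => exact ⟨fun x g y _ h => absurd h (Nat.not_lt_zero _),
      fun i j x g y _ _ _ _ _ _ h => absurd h (Nat.not_lt_zero _)⟩
  | succ n ih =>
    have h1 := uu_succ F X hI ih.1 ih.2
    exact ⟨F.hf S W H X M n hI ih.1 h1, h1⟩

end U

section main

variable {S W H : Type} [Finite S] [Group W] [Ring H] [Algebra ℤ[T;T⁻¹] H] (X : TE S W H)

include F

theorem id_all (M : ℕ) : X.Id M := by
  obtain ⟨N, hN⟩ := (F.ige S W H X).2.2.1
  have key : ∀ k M, N ≤ M + k → X.Id M := by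
    intro k
    induction k with
    | zero =>
      intro M hM x y z h
      have h2 : ∀ w, ¬ X.Ge (M + 1) w := fun w hw => hN w ((F.ige S W H X).2.1 (M + 1) (N + 1) w hw (by omega))
      rcases h with h | h
      · exact absurd h (h2 _)
      · exact absurd h (h2 _)
    | succ k ih =>
      intro M hM
      have h1 := ih (M + 1) (by omega)
      exact F.ids S W H X M fun n => (bp_uu F X h1 n).1
  exact key N M (by omega)

theorem bp_all (M n : ℕ) : X.BP M n := (bp_uu F X (id_all F X M) n).1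

omit F in
theorem exists_not_ge (ige : IGE) (w : W) : ∃ m, ¬ X.Ge (m + 1) w := by
  obtain ⟨N, hN⟩ := (ige S W H X).2.2.1
  exact ⟨N, hN w⟩

open Classical in
/-- the function `a` -/
def aa (ige : IGE) (w : W) : ℕ := Nat.find (exists_not_ge X ige w)

omit F in
theorem ge_iff (ige : IGE) (m : ℕ) (w : W) : X.Ge m w ↔ m ≤ aa X ige w := by
  classical
  obtain ⟨h0, hmono, -⟩ := ige S W H X
  constructor
  · intro h
    by_contra hlt
    push Not at hlt
    exact Nat.find_spec (exists_not_ge X ige w) (hmono m _ w h hlt)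
  · intro h
    refine hmono (aa X ige w) m w ?_ h
    rcases Nat.eq_zero_or_pos (aa X ige w) with h1 | h1
    · rw [h1]
      exact h0 w
    · obtain ⟨k, hk⟩ := Nat.exists_eq_succ_of_ne_zero h1.ne'
      by_contra hc
      have h3 : aa X ige w ≤ k := Nat.find_min' (exists_not_ge X ige w) (by rwa [hk] at hc)
      omega

theorem pg_univ' (e7 : E_7) : PG X.D X.h Set.univ (aa X F.ige) := by
  classical
  have ha := ge_iff X F.ige
  have hBP := bp_all F X
  have hId := id_all F X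
  obtain ⟨N, hN⟩ := (F.ige S W H X).2.2.1
  obtain ⟨hdeg, hBdd⟩ := F.ideg S W H X (aa X F.ige) ha ⟨N, hN⟩ hBP
  have hp1 := F.ip1 S W H X (aa X F.ige) ha hBP
  have p4 : ∀ x y z, X.h x y z ≠ 0 → aa X F.ige x ≤ aa X F.ige z ∧ aa X F.ige y ≤ aa X F.ige z := by
    intro x y z h
    have h1 : ∀ w, (w = x ∨ w = y) → aa X F.ige w ≤ aa X F.ige z := by
      intro w hw
      rcases Nat.eq_zero_or_pos (aa X F.ige w) with h0 | h0
      · omega
      · obtain ⟨k, hk⟩ := Nat.exists_eq_succ_of_ne_zero h0.ne'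
        have hge : X.Ge (k + 1) w := (ha _ _).2 (by omega)
        have h2 : X.Ge (k + 1) z := by
          refine hId k x y z ?_ h
          rcases hw with rfl | rfl
          · exact Or.inl hge
          · exact Or.inr hge
        have := (ha _ _).1 h2
        omega
    exact ⟨h1 x (Or.inl rfl), h1 y (Or.inr rfl)⟩
  have hinv : ∀ z, aa X F.ige z⁻¹ = aa X F.ige z := by
    have h1 : ∀ z, aa X F.ige z ≤ aa X F.ige z⁻¹ := fun z =>
      (ha _ _).1 ((F.ige S W H X).2.2.2.1 _ _ ((ha _ _).2 le_rfl))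
    intro z
    refine le_antisymm ?_ (h1 z)
    have := h1 z⁻¹
    rwa [inv_inv] at this
  have hN' : ∃ N, ∀ z, aa X F.ige z ≤ N := ⟨N, fun z => by
    by_contra hc
    push Not at hc
    exact hN z ((ha _ _).2 hc)⟩
  have p8 := F.ip8 S W H X.toBase (aa X F.ige) hN' hdeg hp1 p4 hinv
  have hiu := F.iu S W H X (aa X F.ige) ha hBP p4
  have hu := e7 W X.h (aa X F.ige) X.cs.length (fun x y z h => (p8 x y z h).1) hiu
  refine ⟨?_, fun x _ y _ z _ => hdeg x y z, fun z _ => ?_, fun z _ => hp1 z,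
    fun x _ y _ z _ => p4 x y z, fun x _ y _ z _ => p8 x y z, fun g _ => ?_⟩
  · obtain ⟨N, hN⟩ := hBdd
    exact ⟨N, fun x _ y _ z => hN x y z⟩
  · obtain ⟨lam, -, h1, -⟩ := hiu z
    by_contra hc
    push Not at hc
    have : (lam.sum fun p m => m * (X.h p.1 p.2 z).coeff (aa X F.ige z)) = 0 := by
      refine Finset.sum_eq_zero fun p _ => ?_
      show lam p * (X.h p.1 p.2 z).coeff (aa X F.ige z) = 0
      rw [hc p.1 (mem_univ_par _ _) p.2 (mem_univ_par _ _), mul_zero]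
    rw [this] at h1
    exact zero_ne_one h1
  · obtain ⟨lam, h1, h0⟩ := hu g
    refine ⟨lam, fun p _ => ⟨mem_univ_par _ _, mem_univ_par _ _⟩, fun z _ => ?_⟩
    split_ifs with hz
    · rw [hz]
      exact h1
    · exact h0 z hz

end main

end Pool.Agent.Helper74.LE
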