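import Pool.Agent.Helper74.LL.GoalsR

/-!
# Project LE (MP_cc6379_al): Coxeter groups with large labels, all weight functions. Definitions.

The Coxeter group part (`Lg`, `w0`, `Full`, `TA`, `TB`, `TBm`, `TC`, `Sm`, and the goals `KD1`, `KD2`, `K1`, `GEO`, `RA0`, `RA1`, `RC`) is the one of project LL
(`Pool.Agent.Helper74.LL`). The structure `TE` replaces `TD`: no condition on the weights, all labels `≠ 2` are at least `7`.
All facts `G_*`, `A_*`, `H_*` of the projects RA and AM are proved (import `Pool.Agent.Helper15.AM.All`).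
-/

set_option autoImplicit false

open LaurentPolynomial Pool.Agent.Helper15.RA Pool.Agent.Helper45.AM Pool.Agent.Helper74.LL

noncomputable section

namespace Pool.Agent.Helper74.LE

/-- The data of the project: a Coxeter group with large labels, any weight function, and its Hecke algebra; `α` is the function `a` of the
parabolic subgroups of rank at most two. -/
structure TE (S W H : Type) [Group W] [Ring H] [Algebra ℤ[T;T⁻¹] H] extends Base S W H where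
  α : W → ℕ
  pg : ∀ I : Set S, Sm I → PG D h I α
  fin : ∀ i j, M i j ≠ 0
  mat : ∀ i j k, M i j = 2 → M i k = 2 → j = k
  big : ∀ i j, i ≠ j → M i j ≠ 2 → 7 ≤ M i j

namespace TE

variable {S W H : Type} [Group W] [Ring H] [Algebra ℤ[T;T⁻¹] H] (X : TE S W H)

/-- The admissible triples. -/
def Adm (x g y : W) : Prop := ∃ I : Set S, Sm I ∧ XR X.cs I x ∧ g ∈ par X.cs I ∧ XL X.cs I y

/-- `T_x c_g T_y` -/
def B (x g y : W) : H := X.D.t x * X.D.c g * X.D.t y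

/-- `a'(w) ≥ m`: there is a reduced product `w = u g u'` with `g ∈ W_I`, `|I| ≤ 2`, `α(g) ≥ m`. -/
def Ge (m : ℕ) (w : W) : Prop := ∃ (u g u' : W) (I : Set S), Sm I ∧ g ∈ par X.cs I ∧ w = u * g * u' ∧
  X.cs.length w = X.cs.length u + X.cs.length g + X.cs.length u' ∧ m ≤ X.α g

/-- Modulo `{c_z : Ge (M+1) z}`, all `c`-coordinates of `Z` have degree at most `k`, and the coefficient of `v^k` is nonzero only at `z`
with `Ge M z`. -/
def LP (M : ℕ) (k : ℤ) (Z : H) : Prop := ∀ z, ¬ X.Ge (M + 1) z →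
  DegLE k (X.b.repr Z z) ∧ ((X.b.repr Z z).coeff k ≠ 0 → X.Ge M z)

/-- `{c_z : Ge (M+1) z}` spans a two-sided ideal. -/
def Id (M : ℕ) : Prop := ∀ x y z, X.Ge (M + 1) x ∨ X.Ge (M + 1) y → X.h x y z ≠ 0 → X.Ge (M + 1) z

/-- the main estimate for triples with `ℓ(x) + ℓ(y) < n` -/
def BP (M n : ℕ) : Prop := ∀ x g y, X.Adm x g y → X.cs.length x + X.cs.length y < n →
  X.LP M ((M : ℤ) - X.α g) (X.B x g y)

/-- `T_u T_u'`, `ℓ(u) + ℓ(u') ≤ n` -/
def N0 (M n : ℕ) : Prop := ∀ u u', X.cs.length u + X.cs.length u' ≤ n → X.LP M M (X.D.t u * X.D.t u')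

/-- `T_u T_b T_u'`, `b ∉ R(u)`, `b ∉ L(u')`, `ℓ(u) + ℓ(u') ≤ n` -/
def N1 (M n : ℕ) : Prop := ∀ (u u' : W) (b : S), ¬ X.cs.IsRightDescent u b → ¬ X.cs.IsLeftDescent u' b →
  X.cs.length u + X.cs.length u' ≤ n →
  X.LP M ((M : ℤ) - X.L (X.cs.simple b)) (X.D.t u * X.D.t (X.cs.simple b) * X.D.t u')

/-- `L(s_i)` -/
def l (i : S) : ℕ := X.L (X.cs.simple i)

/-- `β` is an admissible bound for the full element `g ∈ W_ij` at the level `M`: (1) `m_ij = 2` or `M ≥ L(w0)`: `β = L(g)`; (2) `M < L(w0)`: `β = max (L_i, L_j)`;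
(3), (4) `g = i j i`, `L_j < L_i`, `α(w0 j) ≤ M < L(w0)`: `β = 2 L_i - L_j`. Always `β ≤ M`. -/
def Bd (M : ℕ) (i j : S) (g : W) (β : ℤ) : Prop := β ≤ M ∧
  (((X.M i j = 2 ∨ X.L (w0 X.cs i j) ≤ M) ∧ β = X.L g) ∨
   (X.M i j ≠ 2 ∧ M < X.L (w0 X.cs i j) ∧ β = max (X.l i) (X.l j)) ∨
   (X.M i j ≠ 2 ∧ M < X.L (w0 X.cs i j) ∧ g = X.cs.simple i * X.cs.simple j * X.cs.simple i ∧ X.l j < X.l i ∧
      X.α (w0 X.cs i j * X.cs.simple j) ≤ M ∧ β = 2 * X.l i - X.l j) ∨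
   (X.M i j ≠ 2 ∧ M < X.L (w0 X.cs i j) ∧ g = X.cs.simple j * X.cs.simple i * X.cs.simple j ∧ X.l i < X.l j ∧
      X.α (w0 X.cs i j * X.cs.simple i) ≤ M ∧ β = 2 * X.l j - X.l i))

/-- full triples with `ℓ(x) + ℓ(y) < n`, `ℓ(g) ≤ 3` -/
def N2 (M n : ℕ) : Prop := ∀ (i j : S) (x g y : W) (β : ℤ), i ≠ j → XR X.cs {i, j} x → Full X.cs i j g →
  XL X.cs {i, j} y → X.Bd M i j g β → X.cs.length x + X.cs.length y < n →
  X.LP M (max 1 ((M : ℤ) - β)) (X.D.t x * X.D.t g * X.D.t y)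

/-- nonreduced full triples with `ℓ(x) + ℓ(y) < n` -/
def UU (M n : ℕ) : Prop := ∀ (i j : S) (x g y : W) (β : ℤ), i ≠ j → XR X.cs {i, j} x → Full X.cs i j g →
  XL X.cs {i, j} y → X.Bd M i j g β → X.cs.length x + X.cs.length y < n →
  X.cs.length (x * g * y) ≠ X.cs.length x + X.cs.length g + X.cs.length y →
  X.LP M ((M : ℤ) - β) (X.D.t x * X.D.t g * X.D.t y)

end TE

end Pool.Agent.Helper74.LE
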