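import Pool.Agent.Helper74.LE.Basic

/-!
# Project LE (MP_cc6379_al): goals, part H. Degree estimates for all weight functions.

`X : TE S W H` (see `Defs.lean`); `T_w = X.D.t w`, `c_w = X.D.c w`, `L_i = X.L (X.cs.simple i) = X.l i`, `ℓ = X.cs.length`, `ξ_i = xi L_i = v^(L_i) - v^(-L_i)`. `LP M k Z`: modulo `Vm M` (the span of the `c_z`, `Ge (M+1) z`) all `c`-coordinates of `Z` have degree `≤ k`, and `v^k` occurs only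
at `z` with `Ge M z`. Lemmas on `LP` (sums, multiples, `LP.mono`, `LP.t : LP M 1 (T_w)`, `LP.t_of_ge`, `LP.of_Vm`, `Vm_mul_left/right`) are in `LE/Basic.lean` (copied from `LL/Basic.lean`). Multiplication: `X.D.mul` (`T_w T_w' = T_(w w')` if reduced) and `H_1` (`g_h1`): `T_w T_s = T_(w s)` or `ξ_s T_w + T_(w s)`.
The facts on Coxeter groups `KD1, KD2, K1, GEO, RA0, ..` of `Pool.Agent.Helper74.LL` are hypotheses; `Lg X.M` is `⟨X.fin, X.mat, X.big⟩`. Notation for products: `a b` for `s_a s_b`, `R(w)`, `L(w)` descents.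
The landed proofs of the LL packets with the same or a similar name can be copied and adapted (`TD` is `TE` with a condition on the weights): `Helper16/LL/HWT`, `Helper63/LL/HW0`, `Helper17/LL/HF`, `Helper85/LL/UA1`, `Helper71/LL/UA2`, `Helper12/LL/UB`, `Helper51/LL/UC`, `Helper95/LL/ULOW`, `Helper90/LL/UA0`.
-/

set_option autoImplicit false

open LaurentPolynomial Pool.Agent.Helper15.RA Pool.Agent.Helper45.AM Pool.Agent.Helper74.LL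

noncomputable section

namespace Pool.Agent.Helper74.LE

/-- PACKET LE-HWT (1.5 h). From `KD1`. Weights in dihedral groups (compare the proof of the LL packet HWT, `Helper16/LL/HWT.lean`).

PROOF. `L(1) = 0` (`L(1 * 1)`), `L_i ≥ 1` (`X.wt.pos`, `s_i ≠ 1`). `L(w⁻¹) = L(w)`: `L(w)` is the sum of the `L_i` over a reduced word. For `w0 = al a c m = al c a m` (`KD1`): `L(al a c m) + L(al c a m) = m (L_a + L_c)` (induction, the words are reduced up to length `m`), so `2 L(w0) = m (L_a + L_c) ≥ 7 (L_a + L_c)` if `m ≠ 2`. `m = 2`: `w0 = a c`. For `z ∈ W_ac`, `z ≠ w0`: `u := z⁻¹ w0 ≠ 1`,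
`w0 = z u` is reduced (`KD1` for `z⁻¹`: `ℓ(w0 z) + ℓ(z) = m`, and inverses), `L(w0) = L(z) + L(u)`. `u ∈ W_ac` is alternating: `u ≠ 1`: `L(u) ≥ 1`; `u ≠ s_c` (i.e. `z ≠ w0 c`): `u` contains the letter `a`: `L(u) ≥ L_a`; `ℓ(u) ≥ 2`: `L(u) ≥ L_a + L_c`; `ℓ(u) ≥ 4` (if `ℓ(z) ≤ 3`, `m ≥ 7`): `L(u) ≥ 2 L_a + 2 L_c`. With `u' := w0 z⁻¹`: `u' ≠ s_c` iff `z ≠ c w0`. -/
def HWT : Prop := ∀ (S W H : Type) [Group W] [Ring H] [Algebra ℤ[T;T⁻¹] H] (X : TE S W H),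
  X.L 1 = 0 ∧ (∀ i, 1 ≤ X.L (X.cs.simple i)) ∧ (∀ w, X.L w⁻¹ = X.L w) ∧
  ∀ a c, a ≠ c →
    (X.M a c ≠ 2 → 7 * (X.L (X.cs.simple a) + X.L (X.cs.simple c)) ≤ 2 * X.L (w0 X.cs a c)) ∧
    (X.M a c = 2 → X.L (w0 X.cs a c) = X.L (X.cs.simple a) + X.L (X.cs.simple c)) ∧
    X.L (X.cs.simple a * X.cs.simple c) = X.L (X.cs.simple a) + X.L (X.cs.simple c) ∧
    (X.M a c ≠ 2 →
      X.L (X.cs.simple a * X.cs.simple c * X.cs.simple a) = 2 * X.L (X.cs.simple a) + X.L (X.cs.simple c)) ∧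
    X.L (w0 X.cs a c) = X.L (w0 X.cs a c * X.cs.simple c) + X.L (X.cs.simple c) ∧
    X.L (w0 X.cs a c) = X.L (X.cs.simple c * w0 X.cs a c) + X.L (X.cs.simple c) ∧
    ∀ z ∈ par X.cs {a, c}, z ≠ w0 X.cs a c →
      X.L z + 1 ≤ X.L (w0 X.cs a c) ∧
      (z ≠ w0 X.cs a c * X.cs.simple c → X.L z + X.L (X.cs.simple a) ≤ X.L (w0 X.cs a c)) ∧
      (z ≠ X.cs.simple c * w0 X.cs a c → X.L z + X.L (X.cs.simple a) ≤ X.L (w0 X.cs a c)) ∧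
      (X.cs.length z + 2 ≤ X.M a c →
        X.L z + X.L (X.cs.simple a) + X.L (X.cs.simple c) ≤ X.L (w0 X.cs a c)) ∧
      (X.M a c ≠ 2 → X.cs.length z ≤ 3 →
        X.L z + 2 * X.L (X.cs.simple a) + 2 * X.L (X.cs.simple c) ≤ X.L (w0 X.cs a c))

/-- PACKET LE-HW0 (2.5 h). From `KD1`, `HWT`. The elements `c_(w0)`, and `α(1)`, `α(s_i)`, `α(w0)`.

PROOF. `α 1 = 0`: `A_P` (`k_ap`) for `I = ∅`. `I = {i}` (`= {i, i}`, so `Sm I`): `c_s = T_s + v^(-L_s)`, `c_s c_s = dl(L_s) c_s` (`H_2`): `p1`: the `T_1`-coordinate `v^(-L_s)` has degree `≤ -α(s)`: `α(s) ≤ L_s`; `deg`: `h s s s = dl(L_s)` has degree `≤ α(s)`: `L_s ≤ α(s)`. `I = {a,c}`: `W_I` is finite (`KD1`: lengths `≤ m`; alternating words). `ω := ∑_(z ∈ W_I) v^(L z - L(w0)) T_z`.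
For `s ∈ I` and `s z > z` the pair `T_z`, `T_(s z)` has the coefficients `q`, `v^(L_s) q`, so `T_s ω = v^(L_s) ω`; an element `Y` supported in `W_I` with `T_s Y = v^(L_s) Y` for `s = a, c` is a multiple of `ω`. `bar ω` is supported in `W_I` (`A_S`), `T_s bar ω = v^(L_s) bar ω` (`bar T_s = T_s - ξ_s`), its `T_(w0)`-coordinate is `1` (`H_2`): `bar ω = ω`; `L(z) < L(w0)` for `z ≠ w0` (`HWT`): `ω = c_(w0)` by the
uniqueness in `H_2`. [Or: transfer `R_T` (`Pool.Agent.Helper15.RA`, proved, dihedral groups) with `V_B` (`k_vb`) for `e = Subtype.val : {a,c} → S`.] `α(w0)`: `p1`: `-L(w0) ≤ -α(w0)`. `T_z ω = v^(L z) ω`, so `ω ω = (∑ v^(2 L z - L(w0))) ω`, and the coefficient of `v^(L(w0))` in `h w0 w0 w0` is `1` (only `z = w0`): `deg`: `L(w0) ≤ α(w0)`. -/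
def HW0 : Prop := ∀ (S W H : Type) [Group W] [Ring H] [Algebra ℤ[T;T⁻¹] H] (X : TE S W H),
  X.α 1 = 0 ∧ (∀ i, X.α (X.cs.simple i) = X.L (X.cs.simple i)) ∧
  ∀ a c, a ≠ c → X.α (w0 X.cs a c) = X.L (w0 X.cs a c) ∧
    (∀ z, z ∉ par X.cs {a, c} → X.D.t.repr (X.D.c (w0 X.cs a c)) z = 0) ∧
    (∀ z ∈ par X.cs {a, c}, X.D.t.repr (X.D.c (w0 X.cs a c)) z = T ((X.L z : ℤ) - X.L (w0 X.cs a c)))

/-- PACKET LE-HPB (2 h). No hypotheses (use `k_ab`, `k_as`, `g_h1`, `g_h2`). The coefficients of `c_g`.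

PROOF. `u := g'⁻¹`. (1) For all `u, w`: the `T`-coordinates of `T_u T_w` have degree `≤ L(u)`: induction on `ℓ(u)`, `u = u' s` reduced (or `s u'`), `T_s T_w` is `T_(s w)` or `ξ_s T_w + T_(s w)`. So the `T`-coordinates of `T_u c_g` have degree `≤ L(u)` (those of `c_g` have degree `≤ 0`, `H_2`), and so have its `c`-coordinates `η_k` (`A_B`). (2) `η_k ≠ 0` implies `k ∈ W_I` and `α k ≥ α g`: `T_u = ∑ q_w c_w` with
`w ∈ W_I` (`A_S`), `c_w c_g = ∑ h w g k c_k`, `k ∈ W_I`, `p4`. (3) The `T_1`-coordinate of `T_u c_g` is `∑_k p_k δ(u k = 1) = p_(g')`, where `p_k` are the `T`-coordinates of `c_g` (`H_1`); it is also `∑_k η_k τ(c_k)` with `deg τ(c_k) ≤ -α k ≤ -α g` (`p1`). So `deg p_(g') ≤ L(u) - α g`, `L(u) = L(g')`. -/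
def HPB : Prop := ∀ (S W H : Type) [Group W] [Ring H] [Algebra ℤ[T;T⁻¹] H] (X : TE S W H) (I : Set S) (g g' : W),
  Sm I → g ∈ par X.cs I → g' ∈ par X.cs I → DegLE ((X.L g' : ℤ) - X.α g) (X.D.t.repr (X.D.c g) g')

/-- PACKET LE-HN (3 h). From `KD2`, `HW0`. The triples `(x, 1, y)` and `(x, s_i, y)`. (`k_ar` = `A_R` is the main tool.)

PROOF. Let `g = 1`, `P = ∅`, or `g = s_i`, `P = {i}` (`α g = 0`, `= L_i` by `HW0`; `Sm P`; `XR P x`, `XL P y`). If `ℓ(x) + ℓ(y) < n`: `BP M n` (`B x 1 y = T_x T_y`, as `c_1 = 1`). Let `ℓ(x) + ℓ(y) = n`. If `x = y = 1`: `B = c_g`, coordinate `1` at `g`, `0` elsewhere; if not `Ge (M+1) g` then `α g ≤ M`, so `1` has degree `0 ≤ M - α g`, and its coefficient at `M - α g` is `≠ 0` only if `M = α g`, then `Ge M g`.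
Otherwise there is `v ∈ R(x)` or `v ∈ L(y)` (mirror image, do both). Let `v ∈ R(x)`, `Q = P ∪ {v}` (`Sm Q`, `P ⊆ Q`). `x = x' q`, `XR Q x'`, `q ∈ W_Q`, `q ≠ 1` (since `v ∈ R(x)`), `XR P q` (lengths are additive); `y = q' y'`, `XL Q y'`, `q' ∈ W_Q`, `XL P q'`. (Case `v ∈ L(y)`: `q' ≠ 1`.) `T_x c_g T_y = T_(x') (T_q c_g T_(q')) T_(y')`. By `A_R` (`P ⊆ Q`, `α`): `T_q c_g T_(q') = ∑ η_k c_k`, `k ∈ W_Q`,
`deg η_k ≤ α k - α g`. `B x' k y'` is admissible (for `Q`) with `ℓ(x') + ℓ(y') < n`: it is in `LP M (M - α k)` by `BP M n`, so `η_k B x' k y' ∈ LP M (M - α g)` (`LP.smul_le`). Sum. The third clause: `T_b = c_b - v^(-L_b)` (`H_2`), `T_u T_b T_u' = T_u c_b T_u' - v^(-L_b) T_u T_u'`. -/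
def HN : Prop := ∀ (S W H : Type) [Group W] [Ring H] [Algebra ℤ[T;T⁻¹] H] (X : TE S W H) (M n : ℕ), X.BP M n →
  X.N0 M n ∧
  (∀ (x y : W) (i : S), ¬ X.cs.IsRightDescent x i → ¬ X.cs.IsLeftDescent y i → X.cs.length x + X.cs.length y ≤ n →
    X.LP M ((M : ℤ) - X.L (X.cs.simple i)) (X.D.t x * X.D.c (X.cs.simple i) * X.D.t y)) ∧
  X.N1 M n

/-- PACKET LE-HRL (1.5 h). From `KD1`, `HW0`. The relation `c_(w0) = 0` modulo `Vm M`.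

PROOF. `w = w0`. `c_w = T_w + ∑_(z ∈ W_ac, z ≠ w) v^(L z - L w) T_z` (`HW0`). `c_w ∈ Vm M` (`c_mem_Vm`), so `T_x c_w Z ∈ Vm M` (`Vm_mul_left`, `Vm_mul_right`). `T_x T_z = T_(x z)` (`G_PA`). So `T_(x w) Z = T_x c_w Z - ∑ v^(L z - L w) T_(x z) Z`, every term of the sum is in `LP M k` (`LP.smul_T`), `LP.congr`. The second clause is the same on the other side. -/
def HRL : Prop := ∀ (S W H : Type) [Group W] [Ring H] [Algebra ℤ[T;T⁻¹] H] (X : TE S W H) (M : ℕ) (k : ℤ)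
    (a c : S) (Z : H), a ≠ c → X.Id M → X.Ge (M + 1) (w0 X.cs a c) →
  (∀ x, XR X.cs {a, c} x → (∀ z ∈ par X.cs {a, c}, z ≠ w0 X.cs a c →
      X.LP M (k + X.L (w0 X.cs a c) - X.L z) (X.D.t (x * z) * Z)) → X.LP M k (X.D.t (x * w0 X.cs a c) * Z)) ∧
  (∀ y, XL X.cs {a, c} y → (∀ z ∈ par X.cs {a, c}, z ≠ w0 X.cs a c →
      X.LP M (k + X.L (w0 X.cs a c) - X.L z) (Z * X.D.t (z * y))) → X.LP M k (Z * X.D.t (w0 X.cs a c * y)))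

/-- PACKET LE-HM (1.5 h). From `HWT`. Mirror images (`k_am` = `A_M`).

PROOF. (1) `w = u g u'` reduced iff `w⁻¹ = u'⁻¹ g⁻¹ u⁻¹` reduced; `α g⁻¹ = α g` (`A_P`). (2) `F` of `A_M`: `X.b.repr (F Z) z = X.b.repr Z z⁻¹`, so `LP M k Z → LP M k (F Z)` by (1); `F(T_x T_g T_y) = T_(y⁻¹) T_(g⁻¹) T_(x⁻¹)`. (3) `IsRightDescent w⁻¹ i ↔ IsLeftDescent w i`. `TBm x g y` with `(a, b, c)` gives `TB y⁻¹ g⁻¹ x⁻¹` with `(b, a, c)`. (4) `par` is closed under inverses. -/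
def HM : Prop := ∀ (S W H : Type) [Group W] [Ring H] [Algebra ℤ[T;T⁻¹] H] (X : TE S W H),
  (∀ m w, X.Ge m w⁻¹ ↔ X.Ge m w) ∧
  (∀ M k x g y, X.LP M k (X.D.t y⁻¹ * X.D.t g⁻¹ * X.D.t x⁻¹) → X.LP M k (X.D.t x * X.D.t g * X.D.t y)) ∧
  (∀ x g y, TBm X.cs x g y → TB X.cs y⁻¹ g⁻¹ x⁻¹) ∧
  (∀ i j g, Full X.cs i j g → Full X.cs i j g⁻¹)

/-- PACKET LE-DI1 (2.5 h). From `KD1`. The function `α` of a dihedral group with equal weights. `X.l i = X.l j =: l`, `i ≠ j`, `m = M i j ≥ 7`.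

PROOF. It suffices: for `z ∈ W_ij` with `2 ≤ ℓ(z) ≤ m - 1` there is `z' ∈ W_ij` with `ℓ(z') = ℓ(z) - 1 ≥ 1` and `α z ≤ α z'` (then by induction `α z ≤ α(s) = l`, `s` of length 1: `c_s c_s = dl(l) c_s`, `p1`: `α(s) ≤ L(s)`). Let `z = u y'` reduced.. in words: `z = 2_(k+1)` or `1_(k+1)` (alternating word of length `k + 1`, `1 ≤ k ≤ m - 2`); take `z = q (k+1)` in the notation of `Dih` (it starts with `j`), `s = s_i`: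
`c_i c_(q (k+1)) = c_(p (k+2)) + c_(p k)`: this is the recursion `XX ci cj (k+2) = ci * XX cj ci (k+1) - XX ci cj k` and `R_X` (`RA/GoalsR.lean`, proved, see `RA/All.lean`), valid for `1 ≤ k`, `k + 2 ≤ m`. So `h s_i z z' = 1 ≠ 0` with `z' = p k` (of length `k`): `p4` of `PG`: `α z ≤ α z'`. `R_X` is for the dihedral group alone: transfer it by `V_B` (`k_vb`: `Hv`, `Dv`, `j` with `j (Dv.c g) = X.D.c (iotaE g)`) for
`e = Subtype.val : ({i, j} : Set S) → S` (range `{i, j}`; `G_PS`: lengths and words are preserved; `iotaE` maps `al` to `al`), or prove the recursion in `W` directly (`H_1`, `H_2`, the proof is in the docstring of `R_X`). -/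
def DI1 : Prop := ∀ (S W H : Type) [Group W] [Ring H] [Algebra ℤ[T;T⁻¹] H] (X : TE S W H) (i j : S), i ≠ j →
  X.M i j ≠ 2 → X.l i = X.l j → ∀ g ∈ par X.cs {i, j}, g ≠ 1 → g ≠ w0 X.cs i j → X.α g ≤ X.l i

/-- PACKET LE-DI2 (3 h). From `KD1`. Unequal weights in a dihedral group: `L_j < L_i`. `a := L_i`, `b := L_j`, `m = M i j = 2 n ≥ 8` (even, since `L(1_m) = L(2_m)`; `R_W`), `e := w0 s_j = 1_(m-1)` (the word of length `m - 1` starting with `i`; it also ends with `i`).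

PROOF. Everything is inside `W_ij`; transfer `R_E`, `R_U`, `R_V`, `R_T`, `R_P` (`RA/GoalsR.lean`, proved, see `RA/All.lean`) from the dihedral group to `W_ij` by `V_B` (`k_vb`) for `e = Subtype.val : ({i, j} : Set S) → S` (`G_PS`; `j (Dv.c g) = X.D.c (iotaE g)`, `j (Dv.t g) = X.D.t (iotaE g)`, `iotaE` injective, lengths preserved, `al` goes to `al`). So `h` of `W_ij` is the restriction of `X.h` (uniqueness of `h`, as in `V_C`).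
(1) `g` different from `1, s_i, s_j, w0, e`: `Mid g` (`Mid`: `≠ 1, s_j, e, w0`), by `R_U` all `h x y g` (`x, y ∈ W_ij`) have degree `≤ a`; `low` of `PG`: some `(h x y g).coeff (α g) ≠ 0`: `α g ≤ a`. (2) `R_V`: `(h e e e).coeff A1 ≠ 0`, `A1 = a + (n-1)(a-b)`; `deg` of `PG`: `A1 ≤ α e`, and `A1 ≥ a + 3 (a - b) = 4 a - 3 b`. And `deg h x y e ≤ A1` with `low`: `α e ≤ A1`. So `α e = n (a - b) + b`.
(3) Let `p_y` be the `T_y`-coordinate of `c_e`, `f_k := p_(1_k)`, `g_k := p_(2_k)` (`1_k` starts with `i`, `2_k` with `j`). `c_i c_e = dl(a) c_e` gives `T_i c_e = v^a c_e`, so `p_y = v^(-a) p_(i y)` for `i y > y`: `g_k = v^(-a) f_(k+1)` for `0 ≤ k < m` (`g_0 = f_0 = p_1`). `c_j c_e = c_(w0)`: the `T_(j y)`-coordinate (`j y > y`) is `p_y + v^b p_(j y) = v^(L(j y) - L(w0))` (`R_T`): `f_k + v^b g_(k+1) = v^(L(2_(k+1)) - L(w0))` for `0 ≤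 k < m`.
So `f_k = v^(L(2_(k+1)) - L(w0)) - v^(b-a) f_(k+2)` for `k ≤ m - 2`; `f_(m-1) = 1`, `f_m = p_(w0) = 0` (support in lengths `≤ m - 1`, `H_2`). For odd `k = m - 1 - 2 r`: `deg f_k ≤ - r (a - b)` by induction on `r` (`L(2_(k+1)) - L(w0) = - r (a + b)` for `k + 1 = m - 2 r`). For even `k = m - 2 - 2 r`: `deg f_k ≤ - a - r (a - b)` (`2_(k+1)` has odd length `m - 1 - 2 r`, starts and ends with `j`, `L(w0) - L(2_(k+1)) = a + r (a + b)`).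
`k = 2` (`r = n - 2`): `deg f_2 ≤ - a - (n-2)(a-b)`, `α e + deg f_2 ≤ a - b`. `k = 3` (`r = n - 2`): `α e + deg f_3 ≤ 2 (a - b) + b = 2 a - b`. `g_2 = v^(-a) f_3`: `α e + deg ≤ a - b`. `k = 4` (`r = n - 3`): `g_3 = v^(-a) f_4`: `α e + deg ≤ 3 (a - b) + b - 2 a = a - 2 b`. -/
def DI2 : Prop := ∀ (S W H : Type) [Group W] [Ring H] [Algebra ℤ[T;T⁻¹] H] (X : TE S W H) (i j : S), i ≠ j →
  X.M i j ≠ 2 → X.l j < X.l i →
  (∀ g ∈ par X.cs {i, j}, g ≠ w0 X.cs i j → g ≠ w0 X.cs i j * X.cs.simple j → X.α g ≤ X.l i) ∧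
  4 * X.l i ≤ X.α (w0 X.cs i j * X.cs.simple j) + 3 * X.l j ∧
  (∀ g', g' = X.cs.simple i * X.cs.simple j ∨ g' = X.cs.simple j * X.cs.simple i ∨
      g' = X.cs.simple j * X.cs.simple i * X.cs.simple j →
    DegLE ((X.l i : ℤ) - X.α (w0 X.cs i j * X.cs.simple j))
      (X.D.t.repr (X.D.c (w0 X.cs i j * X.cs.simple j)) g')) ∧
  DegLE (2 * (X.l i : ℤ) - X.l j - X.α (w0 X.cs i j * X.cs.simple j))
    (X.D.t.repr (X.D.c (w0 X.cs i j * X.cs.simple j)) (X.cs.simple i * X.cs.simple j * X.cs.simple i))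

/-- PACKET LE-HBD (2 h). From `KD1`, `HWT`, `HW0`, `HPB`, `DI1`, `DI2`. The bounds `Bd` are good enough.

PROOF. `m = M i j`. `L g' ≤ L(w0)`, and `max (L_i, L_j) ≤ α g` for every full `g` (the letters of a reduced word: `g = s u` or `g = u s v` reduced with `s = s_i`, and with `s = s_j`: `A_P` (last clause) for `{i,j}`, `α(s_i) = L_i`). (a) `m = 2`: `g = g' = s_i s_j = w0` (`KD1`), `α g = L g` (`HW0`): `β = L g ≤ M`, `deg p = deg 1 = 0`. (b) `L(w0) ≤ M`: `β = L g'`; `HPB`. (c) `m ≠ 2`, `M < L(w0) = α(w0)` (`HW0`): `α g ≤ M` so `g ≠ w0`. If `α g ≤ max (L_i, L_j)`: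
`β = max (L_i, L_j) ≤ α g ≤ M`, and `deg p ≤ 0` (`H_2`) `≤ β - α g`. Otherwise (`DI1`, `DI2`; `g` is full) `L_j < L_i` and `g = e = w0 s_j`, or `L_i < L_j` and `g = w0 s_i = w0 cs j i * s_i` (`DI2` for `(j, i)`, `w0 cs i j = w0 cs j i`). Let `L_j < L_i`, `g = e`, `α e ≤ M`. `g'` of length 2 or 3 is `i j`, `j i`, `j i j` or `i j i` (`KD1`). For `i j i`: `β = 2 L_i - L_j ≤ M` (`4 L_i - 3 L_j ≤ α e ≤ M`, `L_j < L_i`) (third alternative of `Bd`), `DI2`; otherwise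
`β = L_i = max`, `DI2`. The case `L_i < L_j` is the same with `i, j` exchanged (fourth alternative). -/
def HBD : Prop := ∀ (S W H : Type) [Group W] [Ring H] [Algebra ℤ[T;T⁻¹] H] (X : TE S W H) (M : ℕ) (i j : S) (g g' : W),
  i ≠ j → Full X.cs i j g → Full X.cs i j g' → X.cs.length g' ≤ 3 → X.α g ≤ M → X.D.t.repr (X.D.c g) g' ≠ 0 →
  ∃ β : ℤ, X.Bd M i j g' β ∧ DegLE (β - X.α g) (X.D.t.repr (X.D.c g) g')

/-- PACKET LE-HF (2.5 h). From `KD1`, `HWT`, `HW0`, `HPB`, `HBD`, `HN`, and `GEO` of LL. The step from the products `T_x T_g' T_y` to `B x g y` (compare `Helper17/LL/HF.lean`).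

PROOF. As for LL-HF (see the docstring in `LL/GoalsH.lean`), only the treatment of a full `k` with `x k y` not reduced changes: by `GEO` (second part) `ℓ(k) ≤ 3`; if `p_k ≠ 0`, `HBD` gives `β` with `Bd M i j k β` and `deg p_k ≤ β - α g`; `UU M (n+1)`: `T_x T_k T_y ∈ LP M (M - β)`, so `p_k T_x T_k T_y ∈ LP M (M - α g)`. -/
def HF : Prop := ∀ (S W H : Type) [Group W] [Ring H] [Algebra ℤ[T;T⁻¹] H] (X : TE S W H) (M n : ℕ),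
  X.Id M → X.BP M n → X.UU M (n + 1) → X.BP M (n + 1)

/-- PACKET LE-ULOW (2 h). From `KD2`, `K1`, `HWT`, `HRL` (compare the LL packet ULOW). A general form of the first relation.

PROOF. `w = w_ac`, `h = w c`. `T_x T_(ab) T_y = T_(x a) T_(b y) = T_(x₅ w) T_(b y)`. `HRL` (first clause, `Z = T_(b y)`): it suffices that `T_(x₅ z) T_(b y) ∈ LP M (K + L w - L z)` for all `z ∈ W_ac`, `z ≠ w`. `z = h`: hypothesis (`L w - L h = L_c`). `z ≠ h`: `ℓ(x₅ z) ≤ ℓ(x)` (`ℓ(x) + 1 = ℓ(x₅) + ℓ(w)`). If `b ∉ R(x₅ z)`: `T_(x₅ z) T_b T_y`, `b ∉ L(y)`: `N1`: `LP M (M - L_b)`, `L w - L z ≥ L_a`.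
If `b ∈ R(x₅ z)`: SZ (`K1`): `ℓ(z) ≤ 2`; `N0` for `T_(x₅ z) T_(b y)` (`ℓ(x₅) + 2 + 1 + ℓ(y) ≤ ℓ(x) + ℓ(y)` as `M a c ≥ 7`): `LP M M`, and `L w - L z ≥ 2 L_a + 2 L_c`. -/
def ULOW : Prop := ∀ (S W H : Type) [Group W] [Ring H] [Algebra ℤ[T;T⁻¹] H] (X : TE S W H) (M n : ℕ) (K : ℤ)
    (a b c : S) (x x₅ y : W), X.Id M → X.N0 M n → X.N1 M n → a ≠ b → a ≠ c → b ≠ c → X.M a c ≠ 2 →
  XR X.cs {a, b} x → XL X.cs {a, b} y → XR X.cs {a, c} x₅ → x * X.cs.simple a = x₅ * w0 X.cs a c →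
  X.cs.length x + X.cs.length y = n → X.Ge (M + 1) (w0 X.cs a c) →
  (M : ℤ) - X.l a - X.l b ≤ K → (M : ℤ) - 2 * X.l a - 2 * X.l c ≤ K →
  X.LP M (K + X.l c) (X.D.t (x₅ * (w0 X.cs a c * X.cs.simple c)) * X.D.t (X.cs.simple b * y)) →
  X.LP M K (X.D.t x * X.D.t (X.cs.simple a * X.cs.simple b) * X.D.t y)

/-- PACKET LE-UA0 (2.5 h). From `KD1`, `KD2`, `HWT`, `HW0`, `RA0`, `ULOW`. Type A, `a ~ c`, `b ~ c`, `L_b ≤ L_a` (compare `LL-UA0`).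

PROOF. `x a = x₅ w_ac`, `XR {a,c} x₅` (`a, c ∈ R(x a)`, `KD2`), `b y = w_bc y₅`, `XL {b,c} y₅`. `h = w_ac c`, `k = c w_bc`. If `M ≥ L_a + L_b + L_c + 1`: `T_x T_(ab) T_y = T_(x a) T_(b y) = T_(x₅ h) T_c T_c T_(k y₅) = T_(x₅ h) T_(k y₅) + ξ_c T_(x₅ h) T_(w_bc y₅)`, both products are reduced (`RA0`): `LP M (L_c + 1)`, `≤ M - L_a - L_b`.
Otherwise `M ≤ L_a + L_b + L_c ≤ 2 L_a + L_c`, `2 L(w_ac) ≥ 7 (L_a + L_c) > 2 M` (`HWT`): `Ge (M+1) w_ac` (`α(w_ac) = L(w_ac)`, `HW0`). `ULOW` with `K = max 0 (M - L_a - L_b)` (`M - 2 L_a - 2 L_c ≤ K` as `L_b ≤ L_a`); `T_(x₅ h) T_(b y) = T_(x₅ h w_bc y₅)` by `RA0` (second clause), `LP.t`, `1 ≤ K + L_c`. -/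
def UA0 : Prop := ∀ (S W H : Type) [Group W] [Ring H] [Algebra ℤ[T;T⁻¹] H] (X : TE S W H) (M n : ℕ)
    (a b c : S) (x y : W), X.Id M → X.N0 M n → X.N1 M n → a ≠ b → a ≠ c → b ≠ c → X.M a c ≠ 2 → X.M b c ≠ 2 →
  X.l b ≤ X.l a →
  XR X.cs {a, b} x → XL X.cs {a, b} y → X.cs.IsRightDescent (x * X.cs.simple a) c →
  X.cs.IsLeftDescent (X.cs.simple b * y) c → X.cs.length x + X.cs.length y = n →
  X.LP M (max 0 ((M : ℤ) - X.l a - X.l b)) (X.D.t x * X.D.t (X.cs.simple a * X.cs.simple b) * X.D.t y)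

/-- PACKET LE-UA1 (3 h). From `KD1`, `KD2`, `HWT`, `HW0`, `HRL`, `RA1`, `ULOW`. Type A, `m_bc = 2` (so `a ~ b`, `a ~ c`), first case (compare `Helper85/LL/UA1.lean`).

PROOF. `b, c ∈ L(b y)`, so `c ∈ L(y)` (`KD2` (2)): `y = c y₅` reduced, `y₅ = c y`; `c ∉ L(y₅)`; `b ∉ L(y₅)` (otherwise `b ∈ L(c y₅) = L(y)` by `KD2` (6)): `XL {b,c} y₅`. The hypothesis says `a ∉ L(b y₅)`. `x a = x₅ w_ac`, `XR {a,c} x₅`, `x = x₅ w_ac a`. `h = w_ac c`. `T_(b y) = T_b T_c T_(y₅) = T_c T_(b y₅)` (`m_bc = 2`). `T_(x₅ h) T_c = T_(x₅ w_ac)`. Both `x₅ h . (b y₅)` and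
`w₂ := x₅ w_ac . (b y₅)` are reduced (`RA1`). (D) `T := T_x T_(ab) T_y = T_(x₅ w_ac) T_(b y) = T_(x₅ h) T_c T_c T_(b y₅) = T_(x₅ h b y₅) + ξ_c T_(w₂)`: in `LP M (L_c + 1)`. For `ULOW` the hypothesis on `T_(x₅ h) T_(b y) = T_(x₅ w_ac) T_(b y₅) = T_(w₂)` (`LP M 1`) holds if `0 ≤ K`.
(i) `L(w_ab) ≤ M`, `K = M - L_a - L_b`: if `M ≥ L_a + L_b + L_c + 1`: (D). Otherwise `2 M ≥ 7 (L_a + L_b)` gives `2 L_c ≥ 5 (L_a + L_b)`, and `2 L(w_ac) ≥ 7 (L_a + L_c) > 2 (L_a + L_b + L_c) ≥ 2 M`: `Ge (M+1) w_ac` (`HW0`), `ULOW`.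
(ii) `max (L_a, L_b) ≤ M`. If `L_b ≤ L_a`, `K = M - L_a ≥ 0`: if `M ≥ L_a + L_c + 1`: (D); otherwise `2 M ≤ 2 (L_a + L_c) < 7 (L_a + L_c) ≤ 2 L(w_ac)`: `ULOW`. If `L_a < L_b`, `K = M - L_b ≥ 0`: `M ≥ L_b + L_c + 1`: (D). `M = L_b + L_c`: `w₂ = (x₅ h) (c b) y₅` is reduced and contains `c b = w_bc` with `α(w_bc) = L_b + L_c = M` (`HW0`): `Ge M w₂`: `ξ_c T_(w₂) ∈ LP M L_c` (`LP.t_of_ge`, `LP.smul_xi`), and `T_(x₅ h b y₅) ∈ LP M 1`.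
`M < L_b + L_c`: `Ge (M+1) w_bc`. `T = Z T_(w_bc y₅)`, `Z := T_x T_a` (`y = c y₅`, `T_(ab) = T_a T_b`). `HRL` (second clause, pair `{b,c}`, `k := K`): for `z ∈ {1, s_b, s_c}` (the elements of `W_bc` other than `w_bc = b c`): `z = 1`: `Z T_(y₅) = T_(x a) T_(y₅)`, `ℓ(x a) + ℓ(y₅) = ℓ(x) + ℓ(y)`: `N0`: `LP M M`, `M ≤ K + L_b + L_c`. `z = b`: `Z T_(b y₅) = T_(x₅ w_ac) T_(b y₅) = T_(w₂) ∈ LP M 1`, `1 ≤ K + L_c`.
`z = c`: `Z T_(c y₅) = T_x T_a T_y`: `N1` (`a ∉ R(x)`, `a ∉ L(y)`): `LP M (M - L_a)`, `≤ K + L_b`. -/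
def UA1 : Prop := ∀ (S W H : Type) [Group W] [Ring H] [Algebra ℤ[T;T⁻¹] H] (X : TE S W H) (M n : ℕ)
    (a b c : S) (x y : W), X.Id M → X.N0 M n → X.N1 M n → a ≠ b → a ≠ c → X.M b c = 2 →
  XR X.cs {a, b} x → XL X.cs {a, b} y → X.cs.IsRightDescent (x * X.cs.simple a) c →
  X.cs.IsLeftDescent (X.cs.simple b * y) c → X.cs.length x + X.cs.length y = n →
  ¬ X.cs.IsLeftDescent (X.cs.simple b * (X.cs.simple c * y)) a →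
  (X.L (w0 X.cs a b) ≤ M → X.LP M ((M : ℤ) - X.l a - X.l b)
    (X.D.t x * X.D.t (X.cs.simple a * X.cs.simple b) * X.D.t y)) ∧
  (max (X.l a) (X.l b) ≤ M → X.LP M ((M : ℤ) - max (X.l a : ℤ) (X.l b))
    (X.D.t x * X.D.t (X.cs.simple a * X.cs.simple b) * X.D.t y))

/-- PACKET LE-UA2 (3.5 h). From `KD1`, `KD2`, `K1`, `GEO`, `HWT`, `HW0`, `RA1`, `HRL`, `ULOW`. Type A, `m_bc = 2`, second case: `a ∈ L(b c y)` (compare `Helper71/LL/UA2.lean`).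

PROOF. `y = c y₅`, `XL {b,c} y₅` as in `UA1`. `a, b ∈ L(b y₅)`: `b y₅ = w y₆`, `w := w_ab`, `XL {a,b} y₆`, `y₅ = (b w) y₆`, `m := m_ab ≥ 7`, `ℓ(y) = m + ℓ(y₆)`. `x a = x₅ w_ac`, `h = w_ac c`, `X' := x₅ h a`, `XR {a,b} X'` (`RA1`), `x₅ h = X' a` reduced. `T := T_x T_(ab) T_y`.
(D) As in `UA1` `T = T_(x₅ h) T_(b y₅) + ξ_c T_(x a) T_(b y₅)`, `T_(x₅ h) T_(w y₆) = T_(X') (T_(a w) + ξ_a T_w) T_(y₆)`, (E) `T_(x a) T_(w y₆) = T_x (T_(a w) + ξ_a T_w) T_(y₆)`; the triples `(X', a w, y₆)`, `(X', w, y₆)`, `(x, a w, y₆)`, `(x, w, y₆)` are reduced by `GEO` (second part, lengths `≥ 6`). So `T ∈ LP M (L_a + L_c + 1)`, `T_(x a) T_(w y₆) ∈ LP M (L_a + 1)`.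
For `ULOW`: `T_(x₅ h) T_(b y) = T_(x₅ h) T_c T_(b y₅) = T_(x a) T_(w y₆) ∈ LP M (L_a + 1)` by (E).
(i) `L w ≤ M`, `K = M - L_a - L_b`. `2 M ≥ 7 (L_a + L_b)`. If `M ≥ 2 L_a + L_b + L_c + 1`: (D). Otherwise `2 L_c ≥ 2 M - 4 L_a - 2 L_b ≥ 3 L_a + 5 L_b`, `2 L(w_ac) ≥ 7 (L_a + L_c) > 4 L_a + 2 L_b + 2 L_c ≥ 2 M`: `Ge (M+1) w_ac`: `ULOW`, `L_a + 1 ≤ K + L_c` as `2 K ≥ 5 (L_a + L_b)`.
(ii) `l₁ := max (L_a, L_b) ≤ M`, `K := M - l₁ ≥ 0`. If `L w ≤ M`: by (i) and `LP.mono`. Let `M < L w`: `Ge (M+1) w`. (P) `L_c ≤ 2 L_a + 2 L_b - l₁`: `Z := T_x T_a T_c`. `T = T_x T_a T_b T_c T_(y₅) = Z T_b T_(y₅) = Z T_(w y₆)`. `HRL` (second clause, pair `{a,b}`): for `z ∈ W_ab`, `z ≠ w`, show `Z T_(z y₆) ∈ LP M (K + L w - L z)`. `z = b w`: `Z T_(y₅) = T_x T_a T_(c y₅) = T_x T_a T_y`: `N1`: `LP M (M - L_a)`, `L w - L z = L_b`.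
`z = a w`: `z = b k'`, `ℓ(k') = m - 2`, `L(k') ∩ {a,b} = {a}`, `c ∉ L(k' y₆)` (left SZ). `Z T_(z y₆) = T_x T_a T_c T_b T_(k' y₆) = T_x T_(ab) T_(c k' y₆)`. `y' := c k' y₆`: `b ∉ L(y')` (otherwise `b ∈ L(c y') = L(k' y₆)`, `KD2` (2)), `a ∉ L(y')` by CA (`K1`, `u = k' y₆`): `XL {a,b} y'`, `ℓ(y') = ℓ(y) - 1`: `N2 M n` with `β = l₁` (second alternative of `Bd`; `m_ab ≠ 2`): `LP M (max 1 (M - l₁))`, `L w - L z = L_a ≥ 1`.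
Other `z`: `ℓ(z) ≤ m - 2`, `L w - L z ≥ L_a + L_b`. If `c ∉ L(z y₆)`: `Z T_(z y₆) = T_(x a) T_(c z y₆)`, `ℓ(x) + 1 + 1 + ℓ(z) + ℓ(y₆) ≤ ℓ(x) + ℓ(y)`: `N0`: `LP M M`. If `c ∈ L(z y₆)`: `ℓ(z) ≤ 2` (left SZ), `T_c T_(z y₆) = T_(c z y₆) + ξ_c T_(z y₆)`: `LP M (M + L_c)` by `N0`, `L w - L z ≥ 2 L_a + 2 L_b` (`HWT`), and `M + L_c ≤ K + 2 L_a + 2 L_b` by (P).
(Q) `L_c > 2 L_a + 2 L_b - l₁` (so `L_c > L_a`, `L_c > l₁ - ..`: if `l₁ = L_a`: `L_c > L_a + 2 L_b`; if `l₁ = L_b`: `L_c > 2 L_a + L_b`). If `Ge (M+1) w_ac`: `ULOW`: `l₁ ≤ L_a + L_b`, `l₁ ≤ 2 L_a + 2 L_c`, `L_a + 1 ≤ K + L_c`. Otherwise `2 M ≥ 2 L(w_ac) ≥ 7 (L_a + L_c)`, so `M - l₁ ≥ L_a + L_c + 1`: (D). -/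
def UA2 : Prop := ∀ (S W H : Type) [Group W] [Ring H] [Algebra ℤ[T;T⁻¹] H] (X : TE S W H) (M n : ℕ)
    (a b c : S) (x y : W), X.Id M → X.N0 M n → X.N1 M n → X.N2 M n → a ≠ b → a ≠ c → X.M b c = 2 →
  XR X.cs {a, b} x → XL X.cs {a, b} y → X.cs.IsRightDescent (x * X.cs.simple a) c →
  X.cs.IsLeftDescent (X.cs.simple b * y) c → X.cs.length x + X.cs.length y = n →
  X.cs.IsLeftDescent (X.cs.simple b * (X.cs.simple c * y)) a →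
  (X.L (w0 X.cs a b) ≤ M → X.LP M ((M : ℤ) - X.l a - X.l b)
    (X.D.t x * X.D.t (X.cs.simple a * X.cs.simple b) * X.D.t y)) ∧
  (max (X.l a) (X.l b) ≤ M → X.LP M ((M : ℤ) - max (X.l a : ℤ) (X.l b))
    (X.D.t x * X.D.t (X.cs.simple a * X.cs.simple b) * X.D.t y))

/-- PACKET LE-UB (2.5 h). From `KD1`, `KD2`, `HWT`, `HW0`, `RA0`, `HRL`. Type B: `g = a c`, `m_ab = 2`, so `a ~ c`, `b ~ c` (`mat`) (compare `Helper12/LL/UB.lean`; only the numerics change).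

PROOF. As for LL-UB (docstring in `LL/GoalsH.lean`): `x' := x b`, `x' a = x₅ w_ac`, `b c y = w_bc y₅`, `T := T_x T_(ac) T_y = T_(x₅ w_ac) T_(w_bc y₅)`, `K := max 0 (M - L_a - L_c)`. If not `Ge (M+1) w_ac`: `2 M ≥ 2 L(w_ac) ≥ 7 (L_a + L_c)`, `T = T_(x₅ h) T_(k y₅) + ξ_c T_(x₅ h) T_(w_bc y₅)` (reduced, `RA0`) is in `LP M (L_c + 1)`, `L_c + 1 ≤ M - L_a - L_c`. If `Ge (M+1) w_ac`: `HRL` (first clause, `Z = T_(b c y)`): `z = h`: reduced, `LP M 1`, `1 ≤ K + L_c`;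
`z = w_ac a`: `T_(x') T_b T_c T_y = T_x T_c T_y`: `N1`: `LP M (M - L_c)`, `≤ K + L_a`; other `z`: `ℓ(z) ≤ m - 2`, `N0`: `LP M M`, `M ≤ K + L_a + L_c`. -/
def UB : Prop := ∀ (S W H : Type) [Group W] [Ring H] [Algebra ℤ[T;T⁻¹] H] (X : TE S W H) (M n : ℕ)
    (a b c : S) (x y : W), X.Id M → X.N0 M n → X.N1 M n → a ≠ c → b ≠ c → X.M a b = 2 →
  XR X.cs {a, c} x → XL X.cs {a, c} y → X.cs.IsRightDescent x b →
  X.cs.IsRightDescent (x * X.cs.simple b * X.cs.simple a) c → ¬ X.cs.IsLeftDescent (X.cs.simple c * y) b →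
  X.cs.IsLeftDescent (X.cs.simple b * X.cs.simple c * y) c → X.cs.length x + X.cs.length y = n →
  X.LP M (max 0 ((M : ℤ) - X.l a - X.l c)) (X.D.t x * X.D.t (X.cs.simple a * X.cs.simple c) * X.D.t y)

/-- PACKET LE-UCL (3 h). From `KD1`, `KD2`, `K1`, `HWT`, `RC`, `HRL`. Type C, low level, general form. `g = a b a`, `m_bc = 2`, so `a ~ b`, `a ~ c` (compare `Helper51/LL/UC.lean`, the LOW part).

PROOF. `x a = x₅ w_ac`, `a y = w_ac y₅`, `m = m_ac`, `ℓ(x) + 1 = ℓ(x₅) + m`, `w = w_ac`, `h = w c`, `k = c w`. `T_x T_(aba) T_y = T_(x₅ w) T_b T_(a y)`. `HRL` (first clause, `Z = T_b T_(a y) = T_(b a y)`): for `z ∈ W_ac`, `z ≠ w`, show `T_(x₅ z) T_b T_(a y) ∈ LP M (K + L w - L z)`. `z = h`: `T_(x₅ h) T_b T_c T_(k y₅) = T_(x₅ w) T_b T_(k y₅)`, reduced (`RC`): `LP M 1`, `1 ≤ K + L_c`. `ℓ(z) ≤ 3`: `N0` for `T_(x₅ z) T_(b a y)` (`ℓ(x₅) +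 3 + 2 + ℓ(y) ≤ n`): `LP M M`,
`L w - L z ≥ 2 L_a + 2 L_c` (`HWT`). `ℓ(z) ≥ 4`, `a ∈ R(z)`, `z ≠ h`: `ℓ(z) ≤ m - 2` (otherwise `w = z s`, `s ∉ R(z)`, so `s = c`, `z = h`), `L w - L z ≥ L_a + L_c`, `u := x₅ (z a)`, `XR {a,b} u` (`KD2`, SZ, `ℓ(z a) ≥ 3`); `T_(x₅ z) T_b T_(a y) = T_u T_(aba) T_y`, `ℓ(u) + ℓ(y) < n`: `N2` with `β₃`: `LP M (max 1 (M - β₃))`, `M - β₃ ≤ K + L_a + L_c`, `1 ≤ K + L_a + L_c`.
`ℓ(z) ≥ 4`, `c ∈ R(z)`: `a ∉ R(z)`, `XR {a,b} (x₅ z)` (SZ), `T_(x₅ z) T_b T_(a y) = T_(x₅ z) T_(ba) T_y`, `ℓ(x₅ z) + ℓ(y) ≤ n`, `s_b s_a` full of length 2: the last but one hypothesis with `β₂`: `LP M (max 1 (M - β₂))`; `z ≠ h`, so `L w - L z ≥ L_a` (`HWT`), `M - β₂ ≤ K + L_a`, `1 ≤ K + L_a`. -/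
def UCL : Prop := ∀ (S W H : Type) [Group W] [Ring H] [Algebra ℤ[T;T⁻¹] H] (X : TE S W H) (M n : ℕ) (K β₂ β₃ : ℤ)
    (a b c : S) (x y : W), X.Id M → X.N0 M n → X.N2 M n → a ≠ b → a ≠ c → X.M b c = 2 →
  XR X.cs {a, b} x → XL X.cs {a, b} y → X.cs.IsRightDescent (x * X.cs.simple a) c →
  X.cs.IsLeftDescent (X.cs.simple a * y) c → X.cs.length x + X.cs.length y = n →
  (∀ (i j : S) (x' g' y' : W) (β : ℤ), i ≠ j → XR X.cs {i, j} x' → Full X.cs i j g' → XL X.cs {i, j} y' →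
    X.cs.length g' = 2 → X.Bd M i j g' β → X.cs.length x' + X.cs.length y' ≤ n →
    X.LP M (max 1 ((M : ℤ) - β)) (X.D.t x' * X.D.t g' * X.D.t y')) →
  X.Ge (M + 1) (w0 X.cs a c) → 0 ≤ K → (M : ℤ) - 2 * X.l a - 2 * X.l c ≤ K →
  X.Bd M a b (X.cs.simple b * X.cs.simple a) β₂ → (M : ℤ) - β₂ ≤ K + X.l a →
  X.Bd M a b (X.cs.simple a * X.cs.simple b * X.cs.simple a) β₃ → (M : ℤ) - β₃ ≤ K + X.l a + X.l c →
  X.LP M K (X.D.t x * X.D.t (X.cs.simple a * X.cs.simple b * X.cs.simple a) * X.D.t y)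

/-- PACKET LE-UCH (3 h). From `KD1`, `KD2`, `K1`, `HWT`, `HW0`, `RC`, `HRL`. Type C, direct estimates. `g = a b a`, `m_bc = 2`, so `a ~ b`, `a ~ c`.

PROOF. `x a = x₅ w`, `w = w_ac`, `XR {a,c} x₅`, `a y = w y₅`, `XL {a,c} y₅`, `h = w c`, `k = c w`. `T := T_x T_(aba) T_y = T_(x a) T_b T_(a y) = T_(x₅ w) T_b T_(w y₅) = T_(x₅ h) T_c T_b T_c T_(k y₅) = T_(x₅ h) T_b T_(k y₅) + ξ_c T_(x₅ w) T_b T_(k y₅)` (`T_c T_b = T_b T_c`), both reduced (`RC`); `w₂ := x₅ w b k y₅`. First clause: `LP M (L_c + 1)`. Second clause (`M = L_b + L_c`): `w₂ = (x₅ h) (c b) (k y₅)` is reduced (`c`, `b` commute) and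
`α(c b) = α(w_bc) = L_b + L_c = M` (`HW0`), so `Ge M w₂`, `ξ_c T_(w₂) ∈ LP M L_c` (`LP.t_of_ge`), and the first product is in `LP M 1`, `1 ≤ L_c`. Third clause: `L_b ≤ M < L_b + L_c`, `K := M - L_b`. `Ge (M+1) w_bc`. `T = T_(x a) T_(w_bc (k y₅))` (`b, c` commute, `w y₅ = c k y₅`), `XL {b,c} (k y₅)`: `c ∉ L(k)`, `KD2` (4), and left SZ for `b` (`ℓ(k) ≥ 3`). `HRL` (second clause, pair `{b,c}`, `Z = T_(x a)`): for `z ∈ {1, s_b, s_c}`: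
`z = 1`: `T_(x a) T_(k y₅) = T_(x₅ h) T_c T_(k y₅) = T_(x₅ h) T_(a y)`; `x₅ h = u a` reduced, `u = x₅ h a`, `ℓ(u) = ℓ(x) - 1`, `a ∉ R(u)`: `= T_u T_a T_a T_y = T_u T_y + ξ_a T_u T_a T_y`: `N0`, `N1`: `LP M M`, and `M ≤ K + L_b + L_c`. `z = b`: `T_(x₅ w) T_b T_(k y₅) = T_(w₂) ∈ LP M 1`, `1 ≤ K + L_c`. `z = c`: `T_(x a) T_(c k y₅) = T_(x a) T_(a y) = T_x T_a T_a T_y = T_x T_y + ξ_a T_x T_a T_y`: `N0`, `N1`: `LP M M`, `M = K + L_b`. -/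
def UCH : Prop := ∀ (S W H : Type) [Group W] [Ring H] [Algebra ℤ[T;T⁻¹] H] (X : TE S W H) (M n : ℕ)
    (a b c : S) (x y : W), X.Id M → X.N0 M n → X.N1 M n → a ≠ b → a ≠ c → X.M b c = 2 →
  XR X.cs {a, b} x → XL X.cs {a, b} y → X.cs.IsRightDescent (x * X.cs.simple a) c →
  X.cs.IsLeftDescent (X.cs.simple a * y) c → X.cs.length x + X.cs.length y = n →
  X.LP M ((X.l c : ℤ) + 1) (X.D.t x * X.D.t (X.cs.simple a * X.cs.simple b * X.cs.simple a) * X.D.t y) ∧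
  (M = X.l b + X.l c →
    X.LP M (X.l c) (X.D.t x * X.D.t (X.cs.simple a * X.cs.simple b * X.cs.simple a) * X.D.t y)) ∧
  (X.l b ≤ M → M < X.l b + X.l c →
    X.LP M ((M : ℤ) - X.l b) (X.D.t x * X.D.t (X.cs.simple a * X.cs.simple b * X.cs.simple a) * X.D.t y))

/-- PACKET LE-UC (1.5 h). From `KD1`, `HWT`, `HW0`, `DI2`, `UCL`, `UCH`. Type C, all bounds.

PROOF. `l₁ := max (L_a, L_b)`, `w = w_ac`. `N2'` = the last hypothesis. `Bd M a b g' β` for `g' = b a`, `a b a` as needed. (i) `L(w_ab) ≤ M` (`2 M ≥ 7 (L_a + L_b)`), `β = 2 L_a + L_b`, `K = M - 2 L_a - L_b ≥ 0`: if `M ≥ 2 L_a + L_b + L_c + 1`: `UCH` (first clause). Otherwise `2 L_c ≥ 2 M - 4 L_a - 2 L_b ≥ 3 L_a + 5 L_b`, `2 L(w) ≥ 7 (L_a + L_c) > 4 L_a + 2 L_b + 2 L_c ≥ 2 M`: `Ge (M+1) w`: `UCL` with `β₂ = L_a + L_b`, `β₃ = 2 L_a + L_b` (first alternative of `Bd`): `M - β₂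 = K + L_a`, `M - β₃ = K`,
`M - 2 L_a - 2 L_c ≤ K` as `L_b ≤ 2 L_c`. (ii) `M < L(w_ab)`, `l₁ ≤ M`, `K = M - l₁`: `L_b ≤ L_a`: if `M ≥ L_a + L_c + 1`: `UCH`; otherwise `2 M ≤ 2 (L_a + L_c) < 2 L(w)`: `UCL` with `β₂ = β₃ = l₁ = L_a` (second alternative). `L_a < L_b`: `M ≥ L_b + L_c + 1`, `M = L_b + L_c`, `M < L_b + L_c`: the three clauses of `UCH`.
(iii) `M < L(w_ab)`, `L_b < L_a`, `α(w_ab b) ≤ M`, `K = M - 2 L_a + L_b`: `4 L_a - 3 L_b ≤ α(w_ab b) ≤ M` (`DI2`), so `K ≥ 2 (L_a - L_b) > 0`. If `M ≥ 2 L_a - L_b + L_c + 1`: `UCH`. Otherwise `2 M ≤ 4 L_a - 2 L_b + 2 L_c < 7 (L_a + L_c) ≤ 2 L(w)`: `UCL` with `β₂ = L_a` (second alternative), `β₃ = 2 L_a - L_b` (third alternative): `M - β₂ = K + L_a - L_b`, `M - β₃ = K`, `M - 2 L_a - 2 L_c ≤ K`. -/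
def UC : Prop := ∀ (S W H : Type) [Group W] [Ring H] [Algebra ℤ[T;T⁻¹] H] (X : TE S W H) (M n : ℕ)
    (a b c : S) (x y : W), X.Id M → X.N0 M n → X.N1 M n → X.N2 M n → a ≠ b → a ≠ c → X.M b c = 2 →
  XR X.cs {a, b} x → XL X.cs {a, b} y → X.cs.IsRightDescent (x * X.cs.simple a) c →
  X.cs.IsLeftDescent (X.cs.simple a * y) c → X.cs.length x + X.cs.length y = n →
  (∀ (i j : S) (x' g' y' : W) (β : ℤ), i ≠ j → XR X.cs {i, j} x' → Full X.cs i j g' → XL X.cs {i, j} y' →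
    X.cs.length g' = 2 → X.Bd M i j g' β → X.cs.length x' + X.cs.length y' ≤ n →
    X.LP M (max 1 ((M : ℤ) - β)) (X.D.t x' * X.D.t g' * X.D.t y')) →
  (X.L (w0 X.cs a b) ≤ M → X.LP M ((M : ℤ) - 2 * X.l a - X.l b)
    (X.D.t x * X.D.t (X.cs.simple a * X.cs.simple b * X.cs.simple a) * X.D.t y)) ∧
  (M < X.L (w0 X.cs a b) → max (X.l a) (X.l b) ≤ M → X.LP M ((M : ℤ) - max (X.l a : ℤ) (X.l b))
    (X.D.t x * X.D.t (X.cs.simple a * X.cs.simple b * X.cs.simple a) * X.D.t y)) ∧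
  (M < X.L (w0 X.cs a b) → X.l b < X.l a → X.α (w0 X.cs a b * X.cs.simple b) ≤ M →
    X.LP M ((M : ℤ) - 2 * X.l a + X.l b)
    (X.D.t x * X.D.t (X.cs.simple a * X.cs.simple b * X.cs.simple a) * X.D.t y))

end Pool.Agent.Helper74.LE
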